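import Pool.Agent.Lib.MP_b399ad_co.Menger

/-! # MP_b399ad_co: Menger in an infinite type, paths (helper77) -/

namespace B399

open Set B399M

variable {V : Type*}

theorem nodup_walk (R : V → V → Prop) : ∀ (n : ℕ) (l : List V), l.length ≤ n → l ≠ [] →
    l.IsChain R → ∃ l' : List V, l' ≠ [] ∧ l'.IsChain R ∧ l'.head? = l.head? ∧
      l'.getLast? = l.getLast? ∧ l'.Nodup ∧ l' ⊆ l := by
  classical
  intro n
  induction n with
  | zero =>
    intro l hl hne
    exact absurd (List.length_eq_zero_iff.mp (by omega)) hne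
  | succ n ih =>
    intro l hl hne hc
    match l, hne with
    | a :: l1, _ =>
      by_cases ha : a ∈ l1
      · obtain ⟨s, t, rfl⟩ := List.append_of_mem ha
        have h1 : (a :: t).length ≤ n := by
          simp at hl ⊢
          omega
        have h2 : (a :: t).IsChain R := by
          have h3 : (a :: (s ++ a :: t)) = (a :: s) ++ (a :: t) := rfl
          rw [h3] at hc
          exact (List.isChain_append.mp hc).2.1
        obtain ⟨l', e1, e2, e3, e4, e5, e6⟩ := ih (a :: t) h1 (List.cons_ne_nil _ _) h2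
        refine ⟨l', e1, e2, ?_, ?_, e5, ?_⟩
        · rw [e3]; rfl
        · rw [e4]
          simp [List.getLast?_cons, List.getLast?_append]
        · intro x hx
          rcases List.mem_cons.1 (e6 hx) with rfl | hx
          · exact List.mem_cons_self
          · exact List.mem_cons_of_mem _ (List.mem_append_right _ (List.mem_cons_of_mem _ hx))
      · match l1, ha, hl, hc with
        | [], _, _, _ => exact ⟨[a], by simp, by simp, rfl, rfl, by simp, fun _ h => h⟩
        | b :: l2, ha, hl, hc =>
          rw [List.isChain_cons_cons] at hc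
          obtain ⟨l', e1, e2, e3, e4, e5, e6⟩ := ih (b :: l2) (by simp at hl ⊢; omega)
            (List.cons_ne_nil _ _) hc.2
          match l', e1, e2, e3, e4, e5, e6 with
          | c :: l3, _, e2, e3, e4, e5, e6 =>
            have hcb : c = b := by simpa using e3
            subst hcb
            refine ⟨a :: c :: l3, by simp, ?_, rfl, ?_, ?_, ?_⟩
            · rw [List.isChain_cons_cons]
              exact ⟨hc.1, e2⟩
            · rw [List.getLast?_cons_cons, e4, List.getLast?_cons_cons]
            · rw [List.nodup_cons]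
              exact ⟨fun h => ha (e6 h), e5⟩
            · intro x hx
              rcases List.mem_cons.1 hx with rfl | hx
              · exact List.mem_cons_self
              · exact List.mem_cons_of_mem _ (e6 hx)

/-- Menger's theorem with a finite set of relevant vertices. -/
theorem menger' (W : Set V) (hW : W.Finite) (R : V → V → Prop)
    (A B : Set V) (hA : A ⊆ W) (hR : ∀ x y, R x y → x ∈ W ∧ y ∈ W) (k : ℕ)
    (h : ∀ T : Finset V, T.card < k → ∃ a ∈ A, a ∉ T ∧ ∃ b ∈ B,
      Relation.ReflTransGen (fun x y => R x y ∧ y ∉ T) a b) :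
    ∃ p : Fin k → List V, (∀ i, p i ≠ [] ∧ (p i).IsChain R ∧ (∃ a ∈ (p i).head?, a ∈ A) ∧
      (∃ b ∈ (p i).getLast?, b ∈ B) ∧ (p i).Nodup ∧ ∀ x ∈ p i, x ∈ W) ∧
      ∀ i j, i ≠ j → (p i).Disjoint (p j) := by
  classical
  have : Finite W := hW
  have hm := menger (V := W) (fun x y => R x.1 y.1) {x | x.1 ∈ A} {x | x.1 ∈ B} k (by
    intro T hT
    by_contra hlt
    push Not at hlt
    obtain ⟨a, haA, haT, b, hbB, hab⟩ := h (T.map ⟨Subtype.val, Subtype.val_injective⟩)
      (by rw [Finset.card_map]; exact hlt)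
    have key : ∀ b, Relation.ReflTransGen (fun x y => R x y ∧
        y ∉ T.map ⟨Subtype.val, Subtype.val_injective⟩) a b → ∃ hb : b ∈ W,
        Relation.ReflTransGen (fun x y : W => R x.1 y.1 ∧ y ∉ T) ⟨a, hA haA⟩ ⟨b, hb⟩ := by
      intro b hb
      induction hb with
      | refl => exact ⟨hA haA, Relation.ReflTransGen.refl⟩
      | @tail y z hy hyz ih =>
        obtain ⟨hyW, ih2⟩ := ih
        have hzW := (hR y z hyz.1).2
        refine ⟨hzW, ih2.tail ⟨hyz.1, ?_⟩⟩
        intro hz
        exact hyz.2 (Finset.mem_map_of_mem _ hz)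
    obtain ⟨hbW, hw⟩ := key b hab
    obtain ⟨l, hl1, hl2⟩ := List.exists_isChain_cons_of_relationReflTransGen hw
    have hwab : WAB (fun x y : W => R x.1 y.1) {x | x.1 ∈ A} {x | x.1 ∈ B}
        (⟨a, hA haA⟩ :: l) := by
      refine ⟨hl1.imp fun _ _ h => h.1, ⟨⟨a, hA haA⟩, by simp, haA⟩, ⟨⟨b, hbW⟩, ?_, hbB⟩⟩
      rw [← hl2, List.getLast?_eq_some_getLast (List.cons_ne_nil _ _)]
      exact Option.mem_some_self _
    obtain ⟨x, hxT, hxl⟩ := hT _ hwab
    rcases List.mem_cons.1 hxl with rfl | hxl
    · exact haT (Finset.mem_map_of_mem ⟨Subtype.val, Subtype.val_injective⟩ hxT)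
    · -- members of the tail are not in `T`
      have : ∀ (l : List W) (a : W), (a :: l).IsChain (fun x y : W => R x.1 y.1 ∧ y ∉ T) →
          ∀ x ∈ l, x ∉ T := by
        intro l
        induction l with
        | nil => intro a _ x hx; simp at hx
        | cons c l ih =>
          intro a hc x hx
          rw [List.isChain_cons_cons] at hc
          rcases List.mem_cons.1 hx with rfl | hx
          · exact hc.1.2
          · exact ih c hc.2 x hx
      exact this l _ hl1 x hxl hxT)
  obtain ⟨p, hp1, hp2⟩ := hm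
  choose p' e1 e2 e3 e4 e5 e6 using fun i => nodup_walk (fun x y : W => R x.1 y.1) _ (p i) le_rfl
    (hp1 i).ne_nil (hp1 i).1
  refine ⟨fun i => (p' i).map Subtype.val, ?_, ?_⟩
  · intro i
    refine ⟨?_, ?_, ?_, ?_, ?_, ?_⟩
    · exact fun h => e1 i (List.map_eq_nil_iff.mp h)
    · rw [List.isChain_map]
      exact e2 i
    · obtain ⟨a, ha, haA⟩ := (hp1 i).2.1
      refine ⟨a.1, ?_, haA⟩
      rw [List.head?_map, e3 i]
      rw [Option.mem_def] at ha
      rw [ha]
      rfl
    · obtain ⟨b, hb, hbB⟩ := (hp1 i).2.2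
      refine ⟨b.1, ?_, hbB⟩
      rw [List.getLast?_map, e4 i]
      rw [Option.mem_def] at hb
      rw [hb]
      rfl
    · exact (e5 i).map Subtype.val_injective
    · intro x hx
      rw [List.mem_map] at hx
      obtain ⟨y, _, rfl⟩ := hx
      exact y.2
  · intro i j hij x hx hx'
    rw [List.mem_map] at hx hx'
    obtain ⟨y, hy, rfl⟩ := hx
    obtain ⟨z, hz, hzy⟩ := hx'
    have : z = y := Subtype.val_injective hzy
    subst this
    exact hp2 i j hij (e6 i hy) (e6 j hz)

end B399
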