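import Pool.Agent.Lib.MP_b399ad_co.Main

/-! # MP_b399ad_co: arbitrary graphs (helper77) -/

namespace B399

open Set

variable {V : Type*}

theorem IsCopy.range_countable {G : SimpleGraph V} {g : Bool × ℤ → V} (_h : IsCopy G g) :
    (Set.range g).Countable := Set.countable_range g

/-- the neighbours of a vertex inside one copy -/
def nbr (g : Bool × ℤ → V) (x : V) : Set V := {y | ∃ a b, FG.Adj a b ∧ g a = x ∧ g b = y}

theorem nbr_finite {G : SimpleGraph V} {g : Bool × ℤ → V} (h : IsCopy G g) (x : V) :
    (nbr g x).Finite := by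
  by_cases hx : ∃ a, g a = x
  · obtain ⟨a, rfl⟩ := hx
    have hsub : nbr g (g a) ⊆ g '' {b | FG.Adj a b} := by
      rintro y ⟨a', b, hab, h1, h2⟩
      rw [h.inj h1] at hab
      exact ⟨b, hab, h2⟩
    refine Set.Finite.subset (Set.Finite.image g ?_) hsub
    have hsub2 : {b | FG.Adj a b} ⊆
        {(a.1, a.2 + 1), (a.1, a.2 - 1), (!a.1, 0)} := by
      intro b hb
      have hb' : FG.Adj a b := hb
      rw [FG_adj] at hb'
      obtain ⟨b1, b2⟩ := b
      rcases hb' with ⟨h1, h2 | h2⟩ | ⟨h1, _, h2⟩
      · left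
        simp only at h1 h2
        rw [h1, h2]
      · right; left
        simp only at h1 h2
        rw [h1]
        ext
        · rfl
        · simp only; omega
      · right; right
        simp only at h1 h2
        rw [Set.mem_singleton_iff, h2]
        have : b1 = !a.1 := by
          revert h1
          cases a.1 <;> cases b1 <;> simp
        rw [this]
    exact Set.Finite.subset (Set.toFinite _) hsub2
  · have : nbr g x = ∅ := by
      ext y
      constructor
      · rintro ⟨a, b, _, h1, _⟩
        exact absurd ⟨a, h1⟩ hx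
      · exact fun h => absurd h (Set.notMem_empty y)
    rw [this]
    exact Set.finite_empty

/-- the subgraph formed by the copies `Y i j` with `j ∈ J i` -/
def sub {n : ℕ → ℕ} (Y : ∀ i, Fin (n i) → Bool × ℤ → V) (J : ∀ i, Set (Fin (n i)))
    (G : SimpleGraph V) (hY : ∀ i j, IsCopy G (Y i j)) : SimpleGraph V where
  Adj x y := ∃ i, ∃ j ∈ J i, y ∈ nbr (Y i j) x
  symm := ⟨by
    rintro x y ⟨i, j, hj, a, b, hab, h1, h2⟩
    exact ⟨i, j, hj, b, a, hab.symm, h2, h1⟩⟩
  loopless := ⟨by
    rintro x ⟨i, j, hj, a, b, hab, h1, h2⟩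
    have h3 := (hY i j).inj (h1.trans h2.symm)
    rw [h3] at hab
    exact FG.loopless.irrefl _ hab⟩

open Classical in
/-- **Theorem** for arbitrary graphs. -/
theorem main_arb {G : SimpleGraph V} (hS : SmallOverlap G) :
    ∃ g : ℕ → Bool × ℤ → V, (∀ i, IsCopy G (g i)) ∧ ∀ i j, i ≠ j → ED (g i) (g j) := by
  choose n q Y hn hY hYY hq using fun i : ℕ => hS (2 * (i + 1))
  -- enumeration of the vertices of all these copies
  have hcount : (⋃ i, ⋃ j, Set.range (Y i j)).Countable :=
    Set.countable_iUnion fun i => Set.countable_iUnion fun j => Set.countable_range _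
  have hne : (⋃ i, ⋃ j, Set.range (Y i j)).Nonempty := by
    have h0 : 0 < n 0 := lt_of_le_of_lt (Nat.zero_le _) (hn 0)
    refine ⟨Y 0 ⟨0, h0⟩ (false, 0), ?_⟩
    rw [Set.mem_iUnion₂]
    exact ⟨0, ⟨0, h0⟩, Set.mem_range_self _⟩
  obtain ⟨e, he⟩ := hcount.exists_eq_range hne
  let J : ∀ i, Set (Fin (n i)) := fun i => {j | ∀ m < i, e m ∉ Set.range (Y i j)}
  let G' := sub Y J G hY
  have hG'G : ∀ x y, G'.Adj x y → G.Adj x y := by
    rintro x y ⟨i, j, _, a, b, hab, rfl, rfl⟩
    exact (hY i j).adj a b hab
  have hlf : ∀ x, (G'.neighborSet x).Finite := by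
    intro x
    by_cases hx : x ∈ ⋃ i, ⋃ j, Set.range (Y i j)
    · rw [he] at hx
      obtain ⟨m, rfl⟩ := hx
      have hsub : G'.neighborSet (e m) ⊆ ⋃ i ∈ Set.Iic m, ⋃ j, nbr (Y i j) (e m) := by
        rintro y ⟨i, j, hj, hy⟩
        rw [Set.mem_iUnion₂]
        refine ⟨i, ?_, Set.mem_iUnion.mpr ⟨j, hy⟩⟩
        rw [Set.mem_Iic]
        by_contra hlt
        push Not at hlt
        obtain ⟨a, b, _, h1, _⟩ := hy
        exact hj m hlt ⟨a, h1⟩
      refine Set.Finite.subset ?_ hsub
      exact (Set.finite_Iic m).biUnion fun i _ => Set.finite_iUnion fun j => nbr_finite (hY i j) _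
    · have : G'.neighborSet x = ∅ := by
        ext y
        constructor
        · rintro ⟨i, j, _, a, b, _, h1, _⟩
          exact (hx (Set.mem_iUnion₂.mpr ⟨i, j, ⟨a, h1⟩⟩)).elim
        · exact fun h => absurd h (Set.notMem_empty y)
      rw [this]
      exact Set.finite_empty
  have hcopy : ∀ i, ∀ j ∈ J i, IsCopy G' (Y i j) := by
    intro i j hj
    refine ⟨fun a b hab => ?_, (hY i j).inj⟩
    show ∃ i', ∃ j' ∈ J i', Y i j b ∈ nbr (Y i' j') (Y i j a)
    exact ⟨i, j, hj, a, b, hab, rfl, rfl⟩
  have hS' : SmallOverlap G' := by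
    intro C
    -- the family number `C`
    have hcard : (n C) ≤ (J C).ncard + C * q C := by
      have h1 : (Set.univ : Set (Fin (n C))) ⊆ J C ∪ ⋃ m ∈ Finset.range C, {j | e m ∈ Set.range (Y C j)} := by
        intro j _
        by_cases hj : j ∈ J C
        · exact Or.inl hj
        · right
          have : ∃ m < C, e m ∈ Set.range (Y C j) := by
            by_contra hcon
            push Not at hcon
            exact hj hcon
          obtain ⟨m, hm, hm2⟩ := this
          rw [Set.mem_iUnion₂]
          exact ⟨m, Finset.mem_range.mpr hm, hm2⟩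
      have h2 := Set.ncard_le_ncard h1 (Set.toFinite _)
      rw [Set.ncard_univ, Nat.card_eq_fintype_card, Fintype.card_fin] at h2
      have h3 := Set.ncard_union_le (J C) (⋃ m ∈ Finset.range C, {j | e m ∈ Set.range (Y C j)})
      have h4 : (⋃ m ∈ Finset.range C, {j | e m ∈ Set.range (Y C j)}).ncard ≤ C * q C := by
        have h5 : (⋃ m ∈ Finset.range C, {j | e m ∈ Set.range (Y C j)}) =
            ((Finset.range C).biUnion fun m =>
              Finset.univ.filter fun j : Fin (n C) => e m ∈ Set.range (Y C j) : Finset (Fin (n C))) := by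
          ext j
          simp
        rw [h5, Set.ncard_coe_finset]
        refine (Finset.card_biUnion_le_card_mul _ _ (q C) fun m _ => ?_).trans ?_
        · refine le_trans (le_of_eq ?_) (hq C (e m))
          rw [← Set.ncard_coe_finset]
          congr 1
          ext j
          simp
        · rw [Finset.card_range]
      omega
    have hcN : C * (q C + 1) < (J C).ncard := by
      have h1 := hn C
      have h2 : 2 * (C + 1) * (q C + 1) = C * q C + (C * (q C + 1) + C + 2 * q C + 2) := by ring
      have h3 : C * (q C + 1) = C * q C + C := by ring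
      omega
    let em : Fin (J C).ncard ≃ J C := by
      have : Fintype (J C) := Fintype.ofFinite _
      exact (Fintype.equivFinOfCardEq (by rw [← Nat.card_eq_fintype_card]; rfl)).symm
    refine ⟨(J C).ncard, q C, fun j => Y C (em j).1, hcN, fun j => hcopy C _ (em j).2, ?_, ?_⟩
    · intro j j' hj
      exact hYY C _ _ fun h => hj (em.injective (Subtype.ext h))
    · intro x
      refine le_trans ?_ (hq C x)
      refine Set.ncard_le_ncard_of_injOn (fun j => (em j).1) ?_ ?_ (Set.toFinite _)
      · intro j hj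
        exact hj
      · intro j _ j' _ h
        exact em.injective (Subtype.ext h)
  obtain ⟨g, hg1, hg2⟩ := main hlf hS'
  exact ⟨g, fun i => ⟨fun a b hab => hG'G _ _ ((hg1 i).adj a b hab), (hg1 i).inj⟩, hg2⟩

end B399
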