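import Mathlib

/-! # MP_b399ad_co: copies of `F` in locally finite graphs, compactness (helper77) -/

namespace B399

open Set

/-- The graph `F`: two disjoint double rays joined by an edge. -/
def FG : SimpleGraph (Bool × ℤ) := SimpleGraph.fromRel (fun x y : Bool × ℤ =>
  (x.1 = y.1 ∧ x.2 + 1 = y.2) ∨ (x.1 ≠ y.1 ∧ x.2 = 0 ∧ y.2 = 0))

theorem FG_adj {x y : Bool × ℤ} : FG.Adj x y ↔
    (x.1 = y.1 ∧ (x.2 + 1 = y.2 ∨ y.2 + 1 = x.2)) ∨ (x.1 ≠ y.1 ∧ x.2 = 0 ∧ y.2 = 0) := by
  unfold FG
  rw [SimpleGraph.fromRel_adj]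
  constructor
  · rintro ⟨_, h⟩
    rcases h with (h | h) | (h | h)
    · exact Or.inl ⟨h.1, Or.inl h.2⟩
    · exact Or.inr h
    · exact Or.inl ⟨h.1.symm, Or.inr h.2⟩
    · exact Or.inr ⟨fun e => h.1 e.symm, h.2.2, h.2.1⟩
  · intro h
    refine ⟨?_, ?_⟩
    · rintro rfl
      rcases h with ⟨_, h | h⟩ | ⟨h, _⟩
      · omega
      · omega
      · exact h rfl
    · rcases h with ⟨h, h' | h'⟩ | h
      · exact Or.inl (Or.inl ⟨h, h'⟩)
      · exact Or.inr (Or.inl ⟨h.symm, h'⟩)
      · exact Or.inl (Or.inr h)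

variable {V : Type*}

/-- `g` is a copy of `F` -/
structure IsCopy (G : SimpleGraph V) (g : Bool × ℤ → V) : Prop where
  adj : ∀ a b, FG.Adj a b → G.Adj (g a) (g b)
  inj : Function.Injective g

/-- edge-disjoint copies -/
def ED (g h : Bool × ℤ → V) : Prop :=
  ∀ a b c d, FG.Adj a b → FG.Adj c d → s(g a, g b) ≠ s(h c, h d)

/-- `g` is a copy of `F` on the box `|m| ≤ n` -/
structure NC (G : SimpleGraph V) (n : ℕ) (g : Bool × ℤ → V) : Prop where
  adj : ∀ a b, FG.Adj a b → a.2.natAbs ≤ n → b.2.natAbs ≤ n → G.Adj (g a) (g b)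
  inj : ∀ a b, a.2.natAbs ≤ n → b.2.natAbs ≤ n → g a = g b → a = b

/-- edge-disjoint on the box `|m| ≤ n` -/
def NED (n : ℕ) (g h : Bool × ℤ → V) : Prop :=
  ∀ a b c d, FG.Adj a b → FG.Adj c d → a.2.natAbs ≤ n → b.2.natAbs ≤ n → c.2.natAbs ≤ n →
    d.2.natAbs ≤ n → s(g a, g b) ≠ s(h c, h d)

theorem IsCopy.nc {G : SimpleGraph V} {g : Bool × ℤ → V} (h : IsCopy G g) (n : ℕ) : NC G n g :=
  ⟨fun a b hab _ _ => h.adj a b hab, fun _ _ _ _ e => h.inj e⟩

theorem ED.ned {g h : Bool × ℤ → V} (H : ED g h) (n : ℕ) : NED n g h :=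
  fun a b c d hab hcd _ _ _ _ => H a b c d hab hcd

theorem ED.symm {g h : Bool × ℤ → V} (H : ED g h) : ED h g :=
  fun a b c d hab hcd e => H c d a b hcd hab e.symm

/-- balls -/
def ball (G : SimpleGraph V) (v : V) : ℕ → Set V
  | 0 => {v}
  | n + 1 => ball G v n ∪ ⋃ w ∈ ball G v n, G.neighborSet w

theorem ball_finite {G : SimpleGraph V} (hG : ∀ v, (G.neighborSet v).Finite) (v : V) :
    ∀ n, (ball G v n).Finite
  | 0 => Set.finite_singleton v
  | n + 1 => (ball_finite hG v n).union ((ball_finite hG v n).biUnion fun w _ => hG w)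

theorem ball_succ {G : SimpleGraph V} {v x y : V} {n : ℕ} (hx : x ∈ ball G v n) (h : G.Adj x y) :
    y ∈ ball G v (n + 1) := by
  refine Or.inr ?_
  rw [Set.mem_iUnion₂]
  exact ⟨x, hx, h⟩

theorem ball_mono {G : SimpleGraph V} {v : V} {m n : ℕ} (h : m ≤ n) : ball G v m ⊆ ball G v n := by
  induction h with
  | refl => exact subset_rfl
  | step _ ih => exact ih.trans Set.subset_union_left

theorem NC.mem_ball {G : SimpleGraph V} {n : ℕ} {g : Bool × ℤ → V} (h : NC G n g) (b : Bool) :
    ∀ k : ℕ, k ≤ n → g (b, (k : ℤ)) ∈ ball G (g (b, 0)) k ∧ g (b, -(k : ℤ)) ∈ ball G (g (b, 0)) k := by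
  intro k
  induction k with
  | zero =>
    intro _
    simp [ball]
  | succ k ih =>
    intro hk
    obtain ⟨h1, h2⟩ := ih (by omega)
    constructor
    · refine ball_succ h1 (h.adj _ _ ?_ ?_ ?_)
      · rw [FG_adj]
        left
        exact ⟨rfl, Or.inl (by push_cast; ring)⟩
      · simp; omega
      · simp only [Int.natAbs_natCast]; omega
    · refine ball_succ h2 (h.adj _ _ ?_ ?_ ?_)
      · rw [FG_adj]
        left
        exact ⟨rfl, Or.inr (by push_cast; ring)⟩
      · simp; omega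
      · simp only [Int.natAbs_neg, Int.natAbs_natCast]; omega

theorem NC.mem_ball' {G : SimpleGraph V} {n : ℕ} {g : Bool × ℤ → V} (h : NC G n g) (b : Bool)
    (m : ℤ) (hm : m.natAbs ≤ n) : g (b, m) ∈ ball G (g (b, 0)) m.natAbs := by
  rcases Int.natAbs_eq m with e | e
  · have := (h.mem_ball b m.natAbs hm).1
    rwa [← e] at this
  · have := (h.mem_ball b m.natAbs hm).2
    rwa [← e] at this

/-- the closed conditions -/
def CC {ι : Type*} (G : SimpleGraph V) (J : ι → Bool → V) (s : Set ι) (n : ℕ) :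
    Set (ι × (Bool × ℤ) → V) :=
  {g | (∀ i ∈ s, ∀ b, g (i, (b, 0)) = J i b) ∧
    (∀ i ∈ s, ∀ a b, FG.Adj a b → a.2.natAbs ≤ n → b.2.natAbs ≤ n → G.Adj (g (i, a)) (g (i, b))) ∧
    (∀ i ∈ s, ∀ a b, a.2.natAbs ≤ n → b.2.natAbs ≤ n → a ≠ b → g (i, a) ≠ g (i, b)) ∧
    (∀ i ∈ s, ∀ j ∈ s, i ≠ j → ∀ a b c d, FG.Adj a b → FG.Adj c d → a.2.natAbs ≤ n →
      b.2.natAbs ≤ n → c.2.natAbs ≤ n → d.2.natAbs ≤ n → s(g (i, a), g (i, b)) ≠ s(g (j, c), g (j, d)))}

private theorem clo1 {ι : Type*} [TopologicalSpace V] [DiscreteTopology V] (p : V → Prop) (i : ι) :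
    IsClosed {g : ι → V | p (g i)} :=
  (isClosed_discrete {x : V | p x}).preimage (f := fun g : ι → V => g i) (continuous_apply i)

private theorem clo2 {ι : Type*} [TopologicalSpace V] [DiscreteTopology V] (p : V → V → Prop)
    (i j : ι) : IsClosed {g : ι → V | p (g i) (g j)} :=
  (isClosed_discrete {x : V × V | p x.1 x.2}).preimage (f := fun g : ι → V => (g i, g j))
    ((continuous_apply i).prodMk (continuous_apply j))

private theorem clo4 {ι : Type*} [TopologicalSpace V] [DiscreteTopology V]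
    (p : V → V → V → V → Prop) (i j k l : ι) : IsClosed {g : ι → V | p (g i) (g j) (g k) (g l)} :=
  (isClosed_discrete {x : (V × V) × (V × V) | p x.1.1 x.1.2 x.2.1 x.2.2}).preimage
    (f := fun g : ι → V => ((g i, g j), (g k, g l)))
    (((continuous_apply i).prodMk (continuous_apply j)).prodMk
      ((continuous_apply k).prodMk (continuous_apply l)))

theorem CC_closed {ι : Type*} [TopologicalSpace V] [DiscreteTopology V] (G : SimpleGraph V)
    (J : ι → Bool → V) (s : Set ι) (n : ℕ) : IsClosed (CC G J s n) := by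
  unfold CC
  simp only [Set.ofPred_and, Set.ofPred_forall]
  refine IsClosed.inter ?_ (IsClosed.inter ?_ (IsClosed.inter ?_ ?_))
  · refine isClosed_iInter fun i => isClosed_iInter fun _ => isClosed_iInter fun b => ?_
    exact clo1 (fun x => x = J i b) _
  · refine isClosed_iInter fun i => isClosed_iInter fun _ => isClosed_iInter fun a =>
      isClosed_iInter fun b => isClosed_iInter fun _ => isClosed_iInter fun _ =>
      isClosed_iInter fun _ => ?_
    exact clo2 (fun x y => G.Adj x y) _ _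
  · refine isClosed_iInter fun i => isClosed_iInter fun _ => isClosed_iInter fun a =>
      isClosed_iInter fun b => isClosed_iInter fun _ => isClosed_iInter fun _ =>
      isClosed_iInter fun _ => ?_
    exact clo2 (fun x y => x ≠ y) _ _
  · refine isClosed_iInter fun i => isClosed_iInter fun _ => isClosed_iInter fun j =>
      isClosed_iInter fun _ => isClosed_iInter fun _ => isClosed_iInter fun a =>
      isClosed_iInter fun b => isClosed_iInter fun c => isClosed_iInter fun d =>
      isClosed_iInter fun _ => isClosed_iInter fun _ => isClosed_iInter fun _ =>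
      isClosed_iInter fun _ => isClosed_iInter fun _ => isClosed_iInter fun _ => ?_
    exact clo4 (fun x y z w => s(x, y) ≠ s(z, w)) _ _ _ _

theorem CC_anti {ι : Type*} {G : SimpleGraph V} {J : ι → Bool → V} {s s' : Set ι} (hs : s ⊆ s')
    {n n' : ℕ} (hn : n ≤ n') : CC G J s' n' ⊆ CC G J s n := by
  rintro g ⟨h1, h2, h3, h4⟩
  refine ⟨fun i hi => h1 i (hs hi), fun i hi a b hab ha hb => h2 i (hs hi) a b hab (by omega) (by omega),
    fun i hi a b ha hb => h3 i (hs hi) a b (by omega) (by omega), ?_⟩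
  intro i hi j hj hij a b c d hab hcd ha hb hc hd
  exact h4 i (hs hi) j (hs hj) hij a b c d hab hcd (by omega) (by omega) (by omega) (by omega)

open Classical in
/-- **Compactness.** -/
theorem compactness {ι : Type*} {G : SimpleGraph V} (hG : ∀ v, (G.neighborSet v).Finite)
    (J : ι → Bool → V) (s : ℕ → Set ι) (hs : Monotone s) (hcov : ∀ i, ∃ n, i ∈ s n)
    (h : ∀ n, ∃ g : ι → Bool × ℤ → V, (∀ i ∈ s n, NC G n (g i) ∧ ∀ b, g i (b, 0) = J i b) ∧
      ∀ i ∈ s n, ∀ j ∈ s n, i ≠ j → NED n (g i) (g j)) :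
    ∃ g : ι → Bool × ℤ → V, (∀ i, IsCopy G (g i) ∧ ∀ b, g i (b, 0) = J i b) ∧
      ∀ i j, i ≠ j → ED (g i) (g j) := by
  let _ : TopologicalSpace V := ⊥
  have _ : DiscreteTopology V := ⟨rfl⟩
  let K : Set (ι × (Bool × ℤ) → V) :=
    Set.pi Set.univ fun p => ball G (J p.1 p.2.1) p.2.2.natAbs
  have hK : IsCompact K := isCompact_univ_pi fun p => (ball_finite hG _ _).isCompact
  have hKc : IsClosed K := isClosed_set_pi fun p _ => isClosed_discrete _
  have hne : (⋂ n, K ∩ CC G J (s n) n).Nonempty := by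
    refine IsCompact.nonempty_iInter_of_sequence_nonempty_isCompact_isClosed _ ?_ ?_ ?_ ?_
    · intro n
      exact Set.inter_subset_inter_right _ (CC_anti (hs (Nat.le_succ n)) (Nat.le_succ n))
    · intro n
      obtain ⟨g, h1, h2⟩ := h n
      refine ⟨fun p => if p.1 ∈ s n ∧ p.2.2.natAbs ≤ n then g p.1 p.2 else J p.1 p.2.1, ?_, ?_⟩
      · rintro ⟨i, b, m⟩ _
        show (if i ∈ s n ∧ m.natAbs ≤ n then g i (b, m) else J i b) ∈ ball G (J i b) m.natAbs
        split_ifs with hc
        · have := (h1 i hc.1).1.mem_ball' b m hc.2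
          rwa [(h1 i hc.1).2 b] at this
        · exact ball_mono (Nat.zero_le _) (Set.mem_singleton _)
      · have key : ∀ i ∈ s n, ∀ a : Bool × ℤ, a.2.natAbs ≤ n →
            (if i ∈ s n ∧ a.2.natAbs ≤ n then g i a else J i a.1) = g i a := by
          intro i hi a ha
          rw [if_pos ⟨hi, ha⟩]
        refine ⟨?_, ?_, ?_, ?_⟩
        · intro i hi b
          show (if i ∈ s n ∧ (0 : ℤ).natAbs ≤ n then g i (b, 0) else J i b) = J i b
          rw [if_pos ⟨hi, by simp⟩]
          exact (h1 i hi).2 b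
        · intro i hi a b hab ha hb
          show G.Adj (if i ∈ s n ∧ a.2.natAbs ≤ n then g i a else J i a.1)
            (if i ∈ s n ∧ b.2.natAbs ≤ n then g i b else J i b.1)
          rw [key i hi a ha, key i hi b hb]
          exact (h1 i hi).1.adj a b hab ha hb
        · intro i hi a b ha hb hab
          show (if i ∈ s n ∧ a.2.natAbs ≤ n then g i a else J i a.1) ≠
            (if i ∈ s n ∧ b.2.natAbs ≤ n then g i b else J i b.1)
          rw [key i hi a ha, key i hi b hb]
          exact fun e => hab ((h1 i hi).1.inj a b ha hb e)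
        · intro i hi j hj hij a b c d hab hcd ha hb hc hd
          show s((if i ∈ s n ∧ a.2.natAbs ≤ n then g i a else J i a.1),
            (if i ∈ s n ∧ b.2.natAbs ≤ n then g i b else J i b.1)) ≠
            s((if j ∈ s n ∧ c.2.natAbs ≤ n then g j c else J j c.1),
            (if j ∈ s n ∧ d.2.natAbs ≤ n then g j d else J j d.1))
          rw [key i hi a ha, key i hi b hb, key j hj c hc, key j hj d hd]
          exact h2 i hi j hj hij a b c d hab hcd ha hb hc hd
    · exact hK.inter_right (CC_closed _ _ _ _)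
    · exact fun n => hKc.inter (CC_closed _ _ _ _)
  obtain ⟨g, hg⟩ := hne
  rw [Set.mem_iInter] at hg
  refine ⟨fun i a => g (i, a), ?_, ?_⟩
  · intro i
    obtain ⟨n0, hn0⟩ := hcov i
    refine ⟨⟨?_, ?_⟩, ?_⟩
    · intro a b hab
      let n := max n0 (max a.2.natAbs b.2.natAbs)
      exact (hg n).2.2.1 i (hs (le_max_left _ _) hn0) a b hab
        ((le_max_left _ _).trans (le_max_right _ _)) ((le_max_right _ _).trans (le_max_right _ _))
    · intro a b e
      by_contra hab
      let n := max n0 (max a.2.natAbs b.2.natAbs)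
      exact (hg n).2.2.2.1 i (hs (le_max_left _ _) hn0) a b
        ((le_max_left _ _).trans (le_max_right _ _)) ((le_max_right _ _).trans (le_max_right _ _)) hab e
    · intro b
      exact (hg n0).2.1 i hn0 b
  · intro i j hij a b c d hab hcd
    obtain ⟨n0, hn0⟩ := hcov i
    obtain ⟨n1, hn1⟩ := hcov j
    let n := max (max n0 n1) (max (max a.2.natAbs b.2.natAbs) (max c.2.natAbs d.2.natAbs))
    have e1 : n0 ≤ n := (le_max_left _ _).trans (le_max_left _ _)
    have e2 : n1 ≤ n := (le_max_right _ _).trans (le_max_left _ _)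
    have e3 : a.2.natAbs ≤ n := ((le_max_left _ _).trans (le_max_left _ _)).trans (le_max_right _ _)
    have e4 : b.2.natAbs ≤ n := ((le_max_right _ _).trans (le_max_left _ _)).trans (le_max_right _ _)
    have e5 : c.2.natAbs ≤ n := ((le_max_left _ _).trans (le_max_right _ _)).trans (le_max_right _ _)
    have e6 : d.2.natAbs ≤ n := ((le_max_right _ _).trans (le_max_right _ _)).trans (le_max_right _ _)
    exact (hg n).2.2.2.2 i (hs e1 hn0) j (hs e2 hn1) hij a b c d hab hcd e3 e4 e5 e6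

end B399
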