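import Mathlib

/-! # MP_b399ad_co: stable cut-offs (helper77) -/

namespace B399

open Classical in
/-- A state: leg `l` keeps the positions `p < t l`; the ray `r` with `own r = some l` is used by `l`
from the position `pos r` on, which is the last position of `r` on the kept parts of the legs. -/
structure St {V L R : Type*} [Fintype R] (leg : L → ℕ → V) (ray : R → ℕ → V)
    (M C : ℕ) (t : L → ℕ) (own : R → Option L) (pos : R → ℕ) : Prop where
  tM : ∀ l, t l ≤ M
  own1 : ∀ r l, own r = some l → ∃ p < t l, leg l p = ray r (pos r)
  cov : ∀ r l p m, p < t l → leg l p = ray r m → own r ≠ none ∧ m ≤ pos r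
  cnt : ∀ l, (Finset.univ.filter fun r => own r = some l).card ≤ C

open Classical in
theorem St.step {V L R : Type*} [Fintype L] [Fintype R] {leg : L → ℕ → V} {ray : R → ℕ → V}
    (hinj : ∀ r, Function.Injective (ray r)) {q D M : ℕ}
    (hq : ∀ x : V, (Finset.univ.filter fun r => x ∈ Set.range (ray r)).card ≤ q)
    {t : L → ℕ} {own : R → Option L} {pos : R → ℕ} (h : St leg ray M (D + q) t own pos)
    (l0 : L) (h1 : t l0 < M) (h2 : (Finset.univ.filter fun r => own r = some l0).card < D) :
    ∃ t' own' pos', St leg ray M (D + q) t' own' pos' ∧ ∑ l, t l < ∑ l, t' l := by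
  let x := leg l0 (t l0)
  let P : R → Prop := fun r => ∃ m, ray r m = x ∧ (own r = none ∨ pos r < m)
  let own' : R → Option L := fun r => if P r then some l0 else own r
  let pos' : R → ℕ := fun r => if hP : P r then Classical.choose hP else pos r
  let t' : L → ℕ := Function.update t l0 (t l0 + 1)
  have ht' : ∀ l, t l ≤ t' l := by
    intro l
    by_cases e : l = l0
    · subst e
      simp [t']
    · simp [t', Function.update_of_ne e]
  have ht0 : t' l0 = t l0 + 1 := by simp [t']
  have hne : ∀ l, l ≠ l0 → t' l = t l := by
    intro l e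
    simp [t', Function.update_of_ne e]
  have hown_pos : ∀ r, P r → own' r = some l0 := fun r hP => if_pos hP
  have hown_neg : ∀ r, ¬ P r → own' r = own r := fun r hP => if_neg hP
  have hpos_pos : ∀ r, P r → ray r (pos' r) = x ∧ (own r = none ∨ pos r < pos' r) := by
    intro r hP
    have : pos' r = Classical.choose hP := dif_pos hP
    rw [this]
    exact Classical.choose_spec hP
  have hpos_neg : ∀ r, ¬ P r → pos' r = pos r := fun r hP => dif_neg hP
  refine ⟨t', own', pos', ⟨?_, ?_, ?_, ?_⟩, ?_⟩
  · intro l
    by_cases e : l = l0
    · subst e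
      omega
    · rw [hne l e]
      exact h.tM l
  · intro r l hl
    by_cases hP : P r
    · rw [hown_pos r hP] at hl
      obtain rfl : l0 = l := Option.some.inj hl
      exact ⟨t l0, by omega, (hpos_pos r hP).1.symm⟩
    · rw [hown_neg r hP] at hl
      rw [hpos_neg r hP]
      obtain ⟨p, hp, hp2⟩ := h.own1 r l hl
      exact ⟨p, lt_of_lt_of_le hp (ht' l), hp2⟩
  · intro r l p m hp hlp
    by_cases hpt : p < t l
    · obtain ⟨h3, h4⟩ := h.cov r l p m hpt hlp
      by_cases hP : P r
      · refine ⟨by rw [hown_pos r hP]; exact Option.some_ne_none _, ?_⟩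
        rcases (hpos_pos r hP).2 with h5 | h5
        · exact absurd h5 h3
        · omega
      · rw [hown_neg r hP, hpos_neg r hP]
        exact ⟨h3, h4⟩
    · have hl : l = l0 := by
        by_contra e
        rw [hne l e] at hp
        exact hpt hp
      subst hl
      have hp' : p = t l := by omega
      subst hp'
      have hx : ray r m = x := hlp.symm
      by_cases hP : P r
      · refine ⟨by rw [hown_pos r hP]; exact Option.some_ne_none _, ?_⟩
        have : m = pos' r := hinj r (hx.trans (hpos_pos r hP).1.symm)
        omega
      · rw [hown_neg r hP, hpos_neg r hP]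
        have h3 : ¬ (own r = none ∨ pos r < m) := fun h4 => hP ⟨m, hx, h4⟩
        push Not at h3
        exact h3
  · intro l
    by_cases e : l = l0
    · subst e
      have hsub : (Finset.univ.filter fun r => own' r = some l) ⊆
          (Finset.univ.filter fun r => own r = some l) ∪
            (Finset.univ.filter fun r => x ∈ Set.range (ray r)) := by
        intro r hr
        rw [Finset.mem_filter] at hr
        rw [Finset.mem_union, Finset.mem_filter, Finset.mem_filter]
        by_cases hP : P r
        · exact Or.inr ⟨Finset.mem_univ _, pos' r, (hpos_pos r hP).1⟩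
        · rw [hown_neg r hP] at hr
          exact Or.inl ⟨Finset.mem_univ _, hr.2⟩
      have h3 := Finset.card_le_card hsub
      have h4 := Finset.card_union_le (Finset.univ.filter fun r => own r = some l)
        (Finset.univ.filter fun r => x ∈ Set.range (ray r))
      have h5 := hq x
      omega
    · refine le_trans (Finset.card_le_card ?_) (h.cnt l)
      intro r hr
      rw [Finset.mem_filter] at hr ⊢
      refine ⟨Finset.mem_univ _, ?_⟩
      by_cases hP : P r
      · rw [hown_pos r hP] at hr
        exact absurd (Option.some.inj hr.2).symm e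
      · rw [hown_neg r hP] at hr
        exact hr.2
  · refine Finset.sum_lt_sum (fun l _ => ht' l) ⟨l0, Finset.mem_univ _, ?_⟩
    omega

open Classical in
theorem stable {V L R : Type*} [Fintype L] [Fintype R] (leg : L → ℕ → V) (ray : R → ℕ → V)
    (hinj : ∀ r, Function.Injective (ray r)) (q D M : ℕ)
    (hq : ∀ x : V, (Finset.univ.filter fun r => x ∈ Set.range (ray r)).card ≤ q) :
    ∃ t own pos, St leg ray M (D + q) t own pos ∧
      ∀ l : L, t l = M ∨ D ≤ (Finset.univ.filter fun r => own r = some l).card := by
  have main : ∀ k : ℕ, ∀ t own pos, St leg ray M (D + q) t own pos →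
      Fintype.card L * M - ∑ l, t l ≤ k → ∃ t own pos, St leg ray M (D + q) t own pos ∧
      ∀ l : L, t l = M ∨ D ≤ (Finset.univ.filter fun r => own r = some l).card := by
    intro k
    induction k with
    | zero =>
      intro t own pos h hk
      refine ⟨t, own, pos, h, ?_⟩
      intro l
      left
      by_contra hl
      have h1 : t l < M := lt_of_le_of_ne (h.tM l) hl
      have h2 : ∑ l, t l < ∑ _l : L, M :=
        Finset.sum_lt_sum (fun l _ => h.tM l) ⟨l, Finset.mem_univ _, h1⟩
      rw [Finset.sum_const, Finset.card_univ, smul_eq_mul] at h2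
      omega
    | succ k ih =>
      intro t own pos h hk
      by_cases hf : ∀ l : L, t l = M ∨ D ≤ (Finset.univ.filter fun r => own r = some l).card
      · exact ⟨t, own, pos, h, hf⟩
      · push Not at hf
        obtain ⟨l0, h1, h2⟩ := hf
        obtain ⟨t', own', pos', h3, h4⟩ := h.step hinj hq l0 (lt_of_le_of_ne (h.tM l0) h1) h2
        exact ih t' own' pos' h3 (by omega)
  refine main _ (fun _ => 0) (fun _ => none) (fun _ => 0) ⟨?_, ?_, ?_, ?_⟩ le_rfl
  · exact fun _ => Nat.zero_le _
  · intro r l h
    simp at h
  · intro r l p m h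
    simp at h
  · intro l
    simp

end B399
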