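import Pool.Agent.Lib.MP_b399ad_co.Menger
import Pool.Agent.Lib.MP_b399ad_co.Basic
import Pool.Agent.Lib.MP_b399ad_co.Stable

/-! # MP_b399ad_co: the exchange lemma (helper77) -/

namespace B399

open Set

variable {V : Type*}

/-- the point number `m` of the arm `σ` -/
def sg (s : Bool) (m : ℕ) : ℤ := if s then (m : ℤ) else -(m : ℤ)

/-- the four arms of a copy, all starting at the centre -/
def arm (g : Bool × ℤ → V) (σ : Bool × Bool) (m : ℕ) : V := g (σ.1, sg σ.2 m)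

theorem arm_zero (g : Bool × ℤ → V) (σ : Bool × Bool) : arm g σ 0 = g (σ.1, 0) := by
  unfold arm sg
  split_ifs <;> simp

theorem arm_inj {G : SimpleGraph V} {g : Bool × ℤ → V} (h : IsCopy G g) (σ : Bool × Bool) :
    Function.Injective (arm g σ) := by
  intro m m' e
  have := h.inj e
  rw [Prod.mk.injEq] at this
  have h2 := this.2
  unfold sg at h2
  split_ifs at h2 <;> omega

theorem arm_arm {G : SimpleGraph V} {g : Bool × ℤ → V} (h : IsCopy G g) {σ σ' : Bool × Bool}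
    {m m' : ℕ} (hm : 1 ≤ m) (e : arm g σ m = arm g σ' m') : σ = σ' := by
  have := h.inj e
  rw [Prod.mk.injEq] at this
  obtain ⟨h1, h2⟩ := this
  unfold sg at h2
  refine Prod.ext h1 ?_
  cases h3 : σ.2 <;> cases h4 : σ'.2 <;> simp [h3, h4] at h2 ⊢ <;> omega

theorem arm_surj (g : Bool × ℤ → V) (x : Bool × ℤ) : ∃ σ m, g x = arm g σ m := by
  obtain ⟨b, m⟩ := x
  by_cases hm : 0 ≤ m
  · refine ⟨(b, true), m.toNat, ?_⟩
    simp only [arm, sg, if_true]
    rw [Int.toNat_of_nonneg hm]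
  · refine ⟨(b, false), (-m).toNat, ?_⟩
    simp only [arm, sg, Bool.false_eq_true, if_false]
    rw [Int.toNat_of_nonneg (by omega)]
    simp

theorem arm_FG (σ : Bool × Bool) (m : ℕ) : FG.Adj (σ.1, sg σ.2 m) (σ.1, sg σ.2 (m + 1)) := by
  rw [FG_adj]
  left
  refine ⟨rfl, ?_⟩
  unfold sg
  split_ifs
  · left; push_cast; ring
  · right; push_cast; ring

theorem arm_adj {G : SimpleGraph V} {g : Bool × ℤ → V} (h : IsCopy G g) (σ : Bool × Bool) (m : ℕ) :
    G.Adj (arm g σ m) (arm g σ (m + 1)) := h.adj _ _ (arm_FG σ m)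

/-- each edge of a copy is an arm edge or the centre edge -/
theorem edge_cases {a b : Bool × ℤ} (h : FG.Adj a b) :
    (∃ (σ : Bool × Bool) (m : ℕ), (a = (σ.1, sg σ.2 m) ∧ b = (σ.1, sg σ.2 (m + 1))) ∨
      (b = (σ.1, sg σ.2 m) ∧ a = (σ.1, sg σ.2 (m + 1)))) ∨
    ((a = (false, 0) ∧ b = (true, 0)) ∨ (b = (false, 0) ∧ a = (true, 0))) := by
  rw [FG_adj] at h
  obtain ⟨a1, a2⟩ := a
  obtain ⟨b1, b2⟩ := b
  simp only [Prod.mk.injEq] at h ⊢
  rcases h with ⟨rfl, h | h⟩ | ⟨h1, rfl, rfl⟩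
  · left
    by_cases h0 : 0 ≤ a2
    · refine ⟨(a1, true), a2.toNat, Or.inl ⟨⟨rfl, ?_⟩, rfl, ?_⟩⟩ <;> simp [sg] <;> omega
    · refine ⟨(a1, false), (-b2).toNat, Or.inr ⟨⟨rfl, ?_⟩, rfl, ?_⟩⟩ <;> simp [sg] <;> omega
  · left
    by_cases h0 : 0 ≤ b2
    · refine ⟨(a1, true), b2.toNat, Or.inr ⟨⟨rfl, ?_⟩, rfl, ?_⟩⟩ <;> simp [sg] <;> omega
    · refine ⟨(a1, false), (-a2).toNat, Or.inl ⟨⟨rfl, ?_⟩, rfl, ?_⟩⟩ <;> simp [sg] <;> omega
  · right
    cases a1 <;> cases b1 <;> simp_all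

/-- the data after the choice of a stable state -/
structure Cfg (G : SimpleGraph V) (k N : ℕ) where
  X : Fin k → Bool × ℤ → V
  Y : Fin N → Bool × ℤ → V
  hX : ∀ i, IsCopy G (X i)
  hY : ∀ j, IsCopy G (Y j)
  hXX : ∀ i i', i ≠ i' → ED (X i) (X i')
  hYY : ∀ j j', j ≠ j' → ED (Y j) (Y j')
  t : Fin k × (Bool × Bool) → ℕ
  own : Fin N × (Bool × Bool) → Option (Fin k × (Bool × Bool))
  pos : Fin N × (Bool × Bool) → ℕ
  t2 : ∀ l, 2 ≤ t l
  own1 : ∀ r l, own r = some l → ∃ p < t l, arm (X l.1) l.2 p = arm (Y r.1) r.2 (pos r)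
  cov : ∀ r l p m, p < t l → arm (X l.1) l.2 p = arm (Y r.1) r.2 m → own r ≠ none ∧ m ≤ pos r

namespace Cfg

variable {G : SimpleGraph V} {k N : ℕ} (c : Cfg G k N)

/-- kept edges of the `i`-th copy -/
def R (i : Fin k) (x y : V) : Prop :=
  (∃ σ p, p + 1 < c.t (i, σ) ∧ s(x, y) = s(arm (c.X i) σ p, arm (c.X i) σ (p + 1))) ∨
  (∃ r σ m, c.own r = some (i, σ) ∧ c.pos r ≤ m ∧
    s(x, y) = s(arm (c.Y r.1) r.2 m, arm (c.Y r.1) r.2 (m + 1)))

/-- kept edges and the centre edge -/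
def Rp (i : Fin k) (x y : V) : Prop := c.R i x y ∨ s(x, y) = s(c.X i (false, 0), c.X i (true, 0))

theorem R_symm {i : Fin k} {x y : V} (h : c.R i x y) : c.R i y x := by
  unfold R at h ⊢
  rw [Sym2.eq_swap]
  exact h

theorem Rp_symm {i : Fin k} {x y : V} (h : c.Rp i x y) : c.Rp i y x := by
  unfold Rp at h ⊢
  rcases h with h | h
  · exact Or.inl (c.R_symm h)
  · rw [Sym2.eq_swap]
    exact Or.inr h

theorem adj_of_sym2 {G : SimpleGraph V} {x y z w : V} (e : s(x, y) = s(z, w)) (h : G.Adj z w) :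
    G.Adj x y := by
  rw [Sym2.eq_iff] at e
  rcases e with ⟨rfl, rfl⟩ | ⟨rfl, rfl⟩
  · exact h
  · exact h.symm

theorem R_adj {i : Fin k} {x y : V} (h : c.R i x y) : G.Adj x y := by
  rcases h with ⟨σ, p, _, e⟩ | ⟨r, σ, m, _, _, e⟩
  · exact adj_of_sym2 e (arm_adj (c.hX i) σ p)
  · exact adj_of_sym2 e (arm_adj (c.hY r.1) r.2 m)

theorem FG_centre : FG.Adj (false, 0) (true, 0) := by
  rw [FG_adj]
  right
  simp

theorem Rp_adj {i : Fin k} {x y : V} (h : c.Rp i x y) : G.Adj x y := by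
  rcases h with h | e
  · exact c.R_adj h
  · exact adj_of_sym2 e ((c.hX i).adj _ _ FG_centre)

theorem arm_edge_eq {g : Bool × ℤ → V} {G : SimpleGraph V} (h : IsCopy G g) {σ σ' : Bool × Bool}
    {m m' : ℕ} (e : s(arm g σ m, arm g σ (m + 1)) = s(arm g σ' m', arm g σ' (m' + 1))) :
    σ = σ' := by
  rw [Sym2.eq_iff] at e
  rcases e with ⟨_, e2⟩ | ⟨_, e2⟩
  · exact arm_arm h (by omega) e2
  · exact arm_arm h (by omega) e2

/-- a kept leg position is not on a used tail -/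
theorem leg_tail {l : Fin k × (Bool × Bool)} {r : Fin N × (Bool × Bool)} {p m : ℕ}
    (hp : p < c.t l) (hm : c.pos r ≤ m) : arm (c.X l.1) l.2 p ≠ arm (c.Y r.1) r.2 (m + 1) := by
  intro e
  have := (c.cov r l p (m + 1) hp e).2
  omega

theorem Rp_disj {i i' : Fin k} (hii : i ≠ i') {x y : V} (h : c.Rp i x y) (h' : c.Rp i' x y) :
    False := by
  have hXF : ∀ (i : Fin k) (σ : Bool × Bool) (p : ℕ), FG.Adj (σ.1, sg σ.2 p) (σ.1, sg σ.2 (p + 1)) :=
    fun _ σ p => arm_FG σ p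
  -- leg against tail
  have key1 : ∀ (i : Fin k) (σ : Bool × Bool) (p : ℕ) (r : Fin N × (Bool × Bool)) (m : ℕ),
      p + 1 < c.t (i, σ) → c.pos r ≤ m →
      s(arm (c.X i) σ p, arm (c.X i) σ (p + 1)) = s(arm (c.Y r.1) r.2 m, arm (c.Y r.1) r.2 (m + 1)) →
      False := by
    intro i σ p r m hp hm e
    rw [Sym2.eq_iff] at e
    rcases e with ⟨_, e2⟩ | ⟨e1, _⟩
    · exact c.leg_tail (l := (i, σ)) hp hm e2
    · exact c.leg_tail (l := (i, σ)) (p := p) (by omega) hm e1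
  -- centre against tail
  have key2 : ∀ (i : Fin k) (r : Fin N × (Bool × Bool)) (m : ℕ), c.pos r ≤ m →
      s(c.X i (false, 0), c.X i (true, 0)) = s(arm (c.Y r.1) r.2 m, arm (c.Y r.1) r.2 (m + 1)) →
      False := by
    intro i r m hm e
    rw [Sym2.eq_iff] at e
    rcases e with ⟨_, e2⟩ | ⟨e1, _⟩
    · refine c.leg_tail (l := (i, (true, true))) (p := 0) (by have := c.t2 (i, (true, true)); omega) hm ?_
      rw [arm_zero]
      exact e2
    · refine c.leg_tail (l := (i, (false, true))) (p := 0) (by have := c.t2 (i, (false, true)); omega) hm ?_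
      rw [arm_zero]
      exact e1
  rcases h with (⟨σ, p, hp, e⟩ | ⟨r, σ, m, ho, hm, e⟩) | e <;>
    rcases h' with (⟨σ', p', hp', e'⟩ | ⟨r', σ', m', ho', hm', e'⟩) | e'
  · exact c.hXX i i' hii _ _ _ _ (arm_FG σ p) (arm_FG σ' p') (e.symm.trans e')
  · exact key1 i σ p r' m' hp hm' (e.symm.trans e')
  · exact c.hXX i i' hii _ _ _ _ (arm_FG σ p) FG_centre (e.symm.trans e')
  · exact key1 i' σ' p' r m hp' hm (e'.symm.trans e)
  · have h1 : r.1 = r'.1 := by
      by_contra h1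
      exact c.hYY r.1 r'.1 h1 _ _ _ _ (arm_FG r.2 m) (arm_FG r'.2 m') (e.symm.trans e')
    have h2 : r.2 = r'.2 := by
      have e3 := e.symm.trans e'
      rw [← h1] at e3
      exact arm_edge_eq (c.hY r.1) e3
    have h3 : r = r' := Prod.ext h1 h2
    rw [h3, ho'] at ho
    have := Option.some.inj ho
    exact hii (Prod.mk.inj this).1.symm
  · exact key2 i' r m hm (e'.symm.trans e)
  · exact c.hXX i i' hii _ _ _ _ FG_centre (arm_FG σ' p') (e.symm.trans e')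
  · exact key2 i r' m' hm' (e.symm.trans e')
  · exact c.hXX i i' hii _ _ _ _ FG_centre FG_centre (e.symm.trans e')

/-- a copy without owned rays is disjoint from the kept legs -/
theorem free_leg {j : Fin N} (hj : ∀ σ, c.own (j, σ) = none) {l : Fin k × (Bool × Bool)} {p : ℕ}
    (hp : p < c.t l) (x : Bool × ℤ) : arm (c.X l.1) l.2 p ≠ c.Y j x := by
  intro e
  obtain ⟨σ, m, hx⟩ := arm_surj (c.Y j) x
  exact (c.cov (j, σ) l p m hp (e.trans hx)).1 (hj σ)

theorem Rp_free {j : Fin N} (hj : ∀ σ, c.own (j, σ) = none) {i : Fin k} {x y : V}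
    (h : c.Rp i x y) {a b : Bool × ℤ} (hab : FG.Adj a b) : s(x, y) ≠ s(c.Y j a, c.Y j b) := by
  intro e0
  rcases h with (⟨σ, p, hp, e⟩ | ⟨r, σ, m, ho, hm, e⟩) | e
  · have e1 := e.symm.trans e0
    rw [Sym2.eq_iff] at e1
    rcases e1 with ⟨e1, _⟩ | ⟨e1, _⟩
    · exact c.free_leg hj (l := (i, σ)) (p := p) (by omega) _ e1
    · exact c.free_leg hj (l := (i, σ)) (p := p) (by omega) _ e1
  · have h1 : r.1 ≠ j := by
      rintro rfl
      have := hj r.2
      rw [Prod.mk.eta, ho] at this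
      exact absurd this (Option.some_ne_none _)
    exact c.hYY r.1 j h1 _ _ _ _ (arm_FG r.2 m) hab (e.symm.trans e0)
  · have e1 := e.symm.trans e0
    rw [Sym2.eq_iff] at e1
    have h0 : arm (c.X i) (false, true) 0 = c.X i (false, 0) := arm_zero _ _
    have ht := c.t2 (i, (false, true))
    rcases e1 with ⟨e1, _⟩ | ⟨e1, _⟩
    · exact c.free_leg hj (l := (i, (false, true))) (p := 0) (by omega) _ (h0.trans e1)
    · exact c.free_leg hj (l := (i, (false, true))) (p := 0) (by omega) _ (h0.trans e1)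

end Cfg

end B399
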