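import Pool.Agent.Lib.MP_b399ad_co.Reroute

/-! # MP_b399ad_co: the exchange theorem (helper77) -/

namespace B399

open Set

variable {V : Type*}

theorem pt_cases (a : Bool × ℤ) : ∃ σ : Bool × Bool, a = (σ.1, sg σ.2 a.2.natAbs) := by
  obtain ⟨b, m⟩ := a
  by_cases hm : 0 ≤ m
  · refine ⟨(b, true), ?_⟩
    simp only [sg, if_true, Prod.mk.injEq, true_and]
    omega
  · refine ⟨(b, false), ?_⟩
    simp only [sg, Bool.false_eq_true, if_false, Prod.mk.injEq, true_and]
    omega

theorem sg_natAbs (s : Bool) (m : ℕ) : (sg s m).natAbs = m := by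
  unfold sg
  split_ifs <;> simp

namespace Cfg

variable {G : SimpleGraph V} {k N : ℕ} (c : Cfg G k N)

theorem Rp_congr {i : Fin k} {x y z w : V} (e : s(x, y) = s(z, w)) (h : c.Rp i z w) :
    c.Rp i x y := by
  unfold Rp R at h ⊢
  rw [e]
  exact h

theorem newcopy (i : Fin k) {B : Set V} {n : ℕ} (hBn : ∀ b, ball G (c.X i (b, 0)) n ⊆ B)
    {P : Bool × Bool → List V} (hP : ∀ σ, (P σ).head? = some (arm (c.X i) σ 1) ∧
      (P σ).IsChain (c.R i) ∧ (∃ b ∈ (P σ).getLast?, b ∉ B) ∧ (P σ).Nodup ∧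
      ∀ x ∈ P σ, ∀ b, x ≠ c.X i (b, 0)) (hP2 : ∀ σ σ', σ ≠ σ' → (P σ).Disjoint (P σ')) :
    ∃ g : Bool × ℤ → V, NC G n g ∧ (∀ b, g (b, 0) = c.X i (b, 0)) ∧
      ∀ a b, FG.Adj a b → a.2.natAbs ≤ n → b.2.natAbs ≤ n → c.Rp i (g a) (g b) := by
  have hball : ∀ σ, ∀ m, ∀ hm : m < (P σ).length,
      (P σ)[m] ∈ ball G (c.X i (σ.1, 0)) (m + 1) := by
    intro σ m
    induction m with
    | zero =>
      intro hm
      have h1 := (hP σ).1
      rw [List.head?_eq_getElem?, List.getElem?_eq_getElem hm] at h1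
      rw [Option.some.inj h1]
      refine ball_succ (x := c.X i (σ.1, 0)) (Set.mem_singleton _) ?_
      rw [← arm_zero (c.X i) σ]
      exact arm_adj (c.hX i) σ 0
    | succ m ih =>
      intro hm
      refine ball_succ (ih (by omega)) ?_
      exact c.R_adj ((hP σ).2.1.getElem m hm)
  have hlen : ∀ σ, n < (P σ).length := by
    intro σ
    by_contra hlt
    push Not at hlt
    obtain ⟨b, hb, hbB⟩ := (hP σ).2.2.1
    have hne : P σ ≠ [] := by
      intro h
      rw [h] at hb
      simp at hb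
    have hpos : 0 < (P σ).length := List.length_pos_iff.mpr hne
    rw [Option.mem_def, List.getLast?_eq_getElem?, List.getElem?_eq_getElem (by omega)] at hb
    have h1 := hball σ ((P σ).length - 1) (by omega)
    rw [Option.some.inj hb] at h1
    exact hbB (hBn σ.1 (ball_mono (by omega) h1))
  let g : Bool × ℤ → V := fun a => if a.2 = 0 then c.X i (a.1, 0) else
    (P (a.1, decide (0 < a.2))).getD (a.2.natAbs - 1) (c.X i (a.1, 0))
  have hg0 : ∀ b, g (b, 0) = c.X i (b, 0) := by
    intro b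
    simp [g]
  have hg1 : ∀ σ m, ∀ hm : m < (P σ).length, arm g σ (m + 1) = (P σ)[m] := by
    intro σ m hm
    obtain ⟨b, s⟩ := σ
    have h1 : sg s (m + 1) ≠ 0 := by
      unfold sg; split_ifs <;> omega
    have h2 : decide (0 < sg s (m + 1)) = s := by
      cases s
      · simp only [sg, Bool.false_eq_true, if_false, decide_eq_false_iff_not]
        omega
      · simp only [sg, if_true, decide_eq_true_eq]
        omega
    have h3 : (sg s (m + 1)).natAbs - 1 = m := by
      rw [sg_natAbs]; rfl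
    show (if sg s (m + 1) = 0 then c.X i (b, 0) else
      (P (b, decide (0 < sg s (m + 1)))).getD ((sg s (m + 1)).natAbs - 1) (c.X i (b, 0))) = _
    rw [if_neg h1, h2, h3, List.getD_eq_getElem _ _ hm]
  have hedge : ∀ σ m, m + 1 ≤ n → c.Rp i (arm g σ m) (arm g σ (m + 1)) := by
    intro σ m hm
    have hl := hlen σ
    rw [hg1 σ m (by omega)]
    rcases Nat.eq_zero_or_pos m with h0 | h0
    · subst h0
      rw [arm_zero, hg0]
      left
      left
      refine ⟨σ, 0, by have := c.t2 (i, σ); omega, ?_⟩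
      have h1 := (hP σ).1
      rw [List.head?_eq_getElem?, List.getElem?_eq_getElem (by omega)] at h1
      rw [Option.some.inj h1, arm_zero]
    · obtain ⟨m', rfl⟩ : ∃ m', m = m' + 1 := ⟨m - 1, by omega⟩
      rw [hg1 σ m' (by omega)]
      left
      exact (hP σ).2.1.getElem m' (by omega)
  have hRp : ∀ a b, FG.Adj a b → a.2.natAbs ≤ n → b.2.natAbs ≤ n → c.Rp i (g a) (g b) := by
    intro a b hab ha hb
    rcases edge_cases hab with ⟨σ, m, ⟨rfl, rfl⟩ | ⟨rfl, rfl⟩⟩ | ⟨rfl, rfl⟩ | ⟨rfl, rfl⟩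
    · simp only [sg_natAbs] at ha hb
      exact hedge σ m hb
    · simp only [sg_natAbs] at ha hb
      exact c.Rp_symm (hedge σ m ha)
    · rw [hg0, hg0]
      exact Or.inr rfl
    · rw [hg0, hg0]
      exact c.Rp_symm (Or.inr rfl)
  refine ⟨g, ⟨fun a b hab ha hb => c.Rp_adj (hRp a b hab ha hb), ?_⟩, hg0, hRp⟩
  intro a b ha hb hab
  obtain ⟨σ, hσ⟩ := pt_cases a
  obtain ⟨σ', hσ'⟩ := pt_cases b
  rw [hσ, hσ'] at hab
  change arm g σ a.2.natAbs = arm g σ' b.2.natAbs at hab
  have hl := hlen σ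
  have hl' := hlen σ'
  have hcase : ∀ (σ σ' : Bool × Bool) (m : ℕ), 1 ≤ m → m ≤ n → n < (P σ').length →
      arm g σ 0 ≠ arm g σ' m := by
    intro σ σ' m h1 h2 h3 e
    obtain ⟨m', rfl⟩ : ∃ m', m = m' + 1 := ⟨m - 1, by omega⟩
    rw [arm_zero, hg0, hg1 σ' m' (by omega)] at e
    exact (hP σ').2.2.2.2 _ (List.getElem_mem _) σ.1 e.symm
  rcases Nat.eq_zero_or_pos a.2.natAbs with h0 | h0 <;>
    rcases Nat.eq_zero_or_pos b.2.natAbs with h1 | h1
  · rw [h0, h1, arm_zero, arm_zero, hg0, hg0] at hab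
    have h2 := (c.hX i).inj hab
    rw [Prod.mk.injEq] at h2
    have h3 : a.1 = σ.1 := by rw [hσ]
    have h4 : b.1 = σ'.1 := by rw [hσ']
    refine Prod.ext ?_ ?_
    · rw [h3, h4]
      exact h2.1
    · omega
  · rw [h0] at hab
    exact absurd hab (hcase σ σ' _ h1 hb hl')
  · rw [h1] at hab
    exact absurd hab.symm (hcase σ' σ _ h0 ha hl)
  · obtain ⟨m, hm⟩ : ∃ m, a.2.natAbs = m + 1 := ⟨a.2.natAbs - 1, by omega⟩
    obtain ⟨m', hm'⟩ : ∃ m', b.2.natAbs = m' + 1 := ⟨b.2.natAbs - 1, by omega⟩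
    rw [hm, hm', hg1 σ m (by omega), hg1 σ' m' (by omega)] at hab
    have h2 : σ = σ' := by
      by_contra hne
      refine hP2 σ σ' hne (List.getElem_mem (n := m) (by omega)) ?_
      rw [hab]
      exact List.getElem_mem _
    subst h2
    have h3 := (List.Nodup.getElem_inj_iff (hP σ).2.2.2.1).mp hab
    subst h3
    rw [hσ, hσ', hm, hm']

end Cfg

open Classical in
/-- **The exchange lemma.** -/
theorem exchange {G : SimpleGraph V} (hG : ∀ v, (G.neighborSet v).Finite) {k N q : ℕ}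
    (X : Fin k → Bool × ℤ → V) (Y : Fin N → Bool × ℤ → V) (hX : ∀ i, IsCopy G (X i))
    (hY : ∀ j, IsCopy G (Y j)) (hXX : ∀ i i', i ≠ i' → ED (X i) (X i'))
    (hYY : ∀ j j', j ≠ j' → ED (Y j) (Y j'))
    (hq : ∀ x : V, (Finset.univ.filter fun j => x ∈ Set.range (Y j)).card ≤ q)
    (hN : 4 * k * (24 * q + 1) < N) (n : ℕ) :
    ∃ (j : Fin N) (g : Fin k → Bool × ℤ → V), (∀ i, NC G n (g i) ∧ ∀ b, g i (b, 0) = X i (b, 0)) ∧
      (∀ i i', i ≠ i' → NED n (g i) (g i')) ∧ ∀ i, NED n (g i) (Y j) := by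
  set B : Set V := ⋃ i, ⋃ b, ball G (X i (b, 0)) n with hB
  have hBf : B.Finite := Set.finite_iUnion fun i => Set.finite_iUnion fun b => ball_finite hG _ _
  have hq4 : ∀ x : V, (Finset.univ.filter fun r : Fin N × (Bool × Bool) =>
      x ∈ Set.range (arm (Y r.1) r.2)).card ≤ 4 * q := by
    intro x
    have hsub : (Finset.univ.filter fun r : Fin N × (Bool × Bool) =>
        x ∈ Set.range (arm (Y r.1) r.2)) ⊆
        (Finset.univ.filter fun j => x ∈ Set.range (Y j)) ×ˢ (Finset.univ : Finset (Bool × Bool)) := by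
      intro r hr
      rw [Finset.mem_filter] at hr
      obtain ⟨m, hm⟩ := hr.2
      rw [Finset.mem_product, Finset.mem_filter]
      exact ⟨⟨Finset.mem_univ _, _, hm⟩, Finset.mem_univ _⟩
    refine (Finset.card_le_card hsub).trans ?_
    rw [Finset.card_product]
    have h1 : (Finset.univ : Finset (Bool × Bool)).card = 4 := by simp [Finset.card_univ]
    rw [h1, mul_comm]
    exact Nat.mul_le_mul_left 4 (hq x)
  obtain ⟨M, hM1, hM2⟩ : ∃ M, 1 ≤ M ∧ ∀ l : Fin k × (Bool × Bool), arm (X l.1) l.2 M ∉ B := by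
    have h : ∀ᶠ M in Filter.atTop, 1 ≤ M ∧ ∀ l : Fin k × (Bool × Bool), arm (X l.1) l.2 M ∉ B := by
      refine (Filter.eventually_ge_atTop 1).and ?_
      rw [Filter.eventually_all]
      exact fun l => arm_eventually (hX l.1) l.2 hBf
    exact h.exists
  obtain ⟨t, own, pos, hst, hfin0⟩ := stable (L := Fin k × (Bool × Bool))
    (fun l => arm (X l.1) l.2) (fun r : Fin N × (Bool × Bool) => arm (Y r.1) r.2)
    (fun r => arm_inj (hY r.1) r.2) (4 * q) (20 * q + 1) (M + 1) hq4
  have hfin : ∀ l, t l = M + 1 ∨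
      20 * q + 1 ≤ (Finset.univ.filter fun r => own r = some l).card := by
    intro l
    convert hfin0 l
  have hcnt : ∀ l, (Finset.univ.filter fun r => own r = some l).card ≤ 20 * q + 1 + 4 * q := by
    intro l
    convert hst.cnt l
  have ht2 : ∀ l, 2 ≤ t l := by
    intro l
    rcases hfin l with h | h
    · omega
    · by_contra hlt
      have hsub : (Finset.univ.filter fun r => own r = some l) ⊆
          (Finset.univ.filter fun r : Fin N × (Bool × Bool) =>
            arm (X l.1) l.2 0 ∈ Set.range (arm (Y r.1) r.2)) := by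
        intro r hr
        rw [Finset.mem_filter] at hr ⊢
        refine ⟨Finset.mem_univ _, ?_⟩
        obtain ⟨p, hp, hpr⟩ := hst.own1 r l hr.2
        have hp0 : p = 0 := by omega
        subst hp0
        exact ⟨pos r, hpr.symm⟩
      have h1 := Finset.card_le_card hsub
      have h2 := hq4 (arm (X l.1) l.2 0)
      omega
  let c : Cfg G k N := ⟨X, Y, hX, hY, hXX, hYY, t, own, pos, ht2, hst.own1, hst.cov⟩
  -- a free copy
  obtain ⟨j, hj⟩ : ∃ j : Fin N, ∀ σ, own (j, σ) = none := by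
    by_contra hcon
    push Not at hcon
    have h1 : (Finset.univ : Finset (Fin N)) ⊆
        ((Finset.univ : Finset (Fin k × (Bool × Bool))).biUnion fun l =>
          Finset.univ.filter fun r => own r = some l).image Prod.fst := by
      intro j _
      obtain ⟨σ, hσ⟩ := hcon j
      obtain ⟨l, hl⟩ := Option.ne_none_iff_exists'.mp hσ
      rw [Finset.mem_image]
      refine ⟨(j, σ), ?_, rfl⟩
      rw [Finset.mem_biUnion]
      exact ⟨l, Finset.mem_univ _, by rw [Finset.mem_filter]; exact ⟨Finset.mem_univ _, hl⟩⟩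
    have h2 := Finset.card_le_card h1
    have h3 : (((Finset.univ : Finset (Fin k × (Bool × Bool))).biUnion fun l =>
          Finset.univ.filter fun r => own r = some l).image Prod.fst).card ≤
          ((Finset.univ : Finset (Fin k × (Bool × Bool))).biUnion fun l =>
          Finset.univ.filter fun r => own r = some l).card := Finset.card_image_le
    have h4 := Finset.card_biUnion_le_card_mul (Finset.univ : Finset (Fin k × (Bool × Bool)))
      (fun l => Finset.univ.filter fun r => own r = some l) (20 * q + 1 + 4 * q)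
      (fun l _ => hcnt l)
    have h5 : (Finset.univ : Finset (Fin k × (Bool × Bool))).card = k * 4 := by
      simp [Finset.card_univ]
    rw [h5] at h4
    have h6 : (Finset.univ : Finset (Fin N)).card = N := by simp
    have h7 : k * 4 * (20 * q + 1 + 4 * q) = 4 * k * (24 * q + 1) := by ring
    omega
  have hnew : ∀ i : Fin k, ∃ g : Bool × ℤ → V, NC G n g ∧ (∀ b, g (b, 0) = X i (b, 0)) ∧
      ∀ a b, FG.Adj a b → a.2.natAbs ≤ n → b.2.natAbs ≤ n → c.Rp i (g a) (g b) := by
    intro i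
    obtain ⟨P, hP, hP2⟩ := c.reroute i hBf hq4 (by
      intro σ
      rcases hfin (i, σ) with h | h
      · left
        have : c.t (i, σ) - 1 = M := by
          show t (i, σ) - 1 = M
          omega
        rw [this]
        exact hM2 (i, σ)
      · right
        have h' : 20 * q + 1 ≤ (Finset.univ.filter fun r => c.own r = some (i, σ)).card := by
          convert h
        omega)
    refine c.newcopy i (B := B) ?_ hP hP2
    intro b x hx
    rw [hB, Set.mem_iUnion₂]
    exact ⟨i, b, hx⟩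
  choose g hg1 hg2 hg3 using hnew
  refine ⟨j, g, fun i => ⟨hg1 i, hg2 i⟩, ?_, ?_⟩
  · intro i i' hii a b a' b' hab hab' ha hb ha' hb' e
    exact c.Rp_disj hii (hg3 i a b hab ha hb) (c.Rp_congr e (hg3 i' a' b' hab' ha' hb'))
  · intro i a b a' b' hab hab' ha hb _ _
    exact c.Rp_free hj (hg3 i a b hab ha hb) hab'

end B399
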