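import Pool.Agent.Lib.MP_b399ad_co.Exchange

/-! # MP_b399ad_co: the main theorem (helper77) -/

namespace B399

open Set

variable {V : Type*}

/-- centres `J 0, ..., J (k-1)` of pairwise edge-disjoint copies -/
def Linkable (G : SimpleGraph V) {k : ℕ} (J : Fin k → Bool → V) : Prop :=
  ∃ g : Fin k → Bool × ℤ → V, (∀ i, IsCopy G (g i) ∧ ∀ b, g i (b, 0) = J i b) ∧
    ∀ i i', i ≠ i' → ED (g i) (g i')

/-- `N` edge-disjoint copies such that each vertex lies in at most `q` of them, `N > C (q + 1)` -/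
def SmallOverlap (G : SimpleGraph V) : Prop :=
  ∀ C : ℕ, ∃ (N q : ℕ) (Y : Fin N → Bool × ℤ → V), C * (q + 1) < N ∧ (∀ j, IsCopy G (Y j)) ∧
    (∀ j j', j ≠ j' → ED (Y j) (Y j')) ∧ ∀ x : V, {j | x ∈ Set.range (Y j)}.ncard ≤ q

open Classical in
theorem Linkable.extend {G : SimpleGraph V} (hG : ∀ v, (G.neighborSet v).Finite)
    (hS : SmallOverlap G) {k : ℕ} {J : Fin k → Bool → V} (h : Linkable G J) :
    ∃ e : Bool → V, Linkable G (Fin.snoc (α := fun _ => Bool → V) J e) := by
  obtain ⟨X, hX, hXX⟩ := h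
  obtain ⟨N, q, Y, hN, hY, hYY, hq⟩ := hS (4 * k * 24)
  have hq' : ∀ x : V, (Finset.univ.filter fun j => x ∈ Set.range (Y j)).card ≤ q := by
    intro x
    refine le_trans (le_of_eq ?_) (hq x)
    rw [← Set.ncard_coe_finset]
    congr 1
    ext j
    simp
  have hN' : 4 * k * (24 * q + 1) < N := by
    refine lt_of_le_of_lt ?_ hN
    have : 4 * k * 24 * (q + 1) = 4 * k * (24 * q + 24) := by ring
    rw [this]
    exact Nat.mul_le_mul_left _ (by omega)
  have hex := exchange hG X Y (fun i => (hX i).1) hY hXX hYY hq' hN'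
  -- a copy which works for all `n`
  let Q : Fin N → ℕ → Prop := fun j n => ∃ g : Fin k → Bool × ℤ → V,
    (∀ i, NC G n (g i) ∧ ∀ b, g i (b, 0) = X i (b, 0)) ∧
      (∀ i i', i ≠ i' → NED n (g i) (g i')) ∧ ∀ i, NED n (g i) (Y j)
  have hmono : ∀ j n n', n ≤ n' → Q j n' → Q j n := by
    rintro j n n' hn ⟨g, h1, h2, h3⟩
    refine ⟨g, fun i => ⟨⟨?_, ?_⟩, (h1 i).2⟩, ?_, ?_⟩
    · exact fun a b hab ha hb => (h1 i).1.adj a b hab (by omega) (by omega)
    · exact fun a b ha hb => (h1 i).1.inj a b (by omega) (by omega)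
    · exact fun i i' hii a b c d hab hcd ha hb hc hd =>
        h2 i i' hii a b c d hab hcd (by omega) (by omega) (by omega) (by omega)
    · exact fun i a b c d hab hcd ha hb hc hd =>
        h3 i a b c d hab hcd (by omega) (by omega) (by omega) (by omega)
  obtain ⟨j, hj⟩ : ∃ j, ∀ n, Q j n := by
    by_contra hcon
    push Not at hcon
    choose f hf using hcon
    obtain ⟨j, hj⟩ := hex (Finset.univ.sup f)
    exact hf j (hmono j _ _ (Finset.le_sup (Finset.mem_univ j)) hj)
  refine ⟨fun b => Y j (b, 0), ?_⟩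
  have hcomp := compactness (ι := Fin (k + 1)) hG
    (Fin.snoc (α := fun _ => Bool → V) (fun i b => X i (b, 0)) (fun b => Y j (b, 0)))
    (fun _ => Set.univ) monotone_const (fun _ => ⟨0, Set.mem_univ _⟩) (by
      intro n
      obtain ⟨g, h1, h2, h3⟩ := hj n
      refine ⟨Fin.snoc (α := fun _ => Bool × ℤ → V) g (Y j), ?_, ?_⟩
      · intro i _
        induction i using Fin.lastCases with
        | last => simp only [Fin.snoc_last]; exact ⟨(hY j).nc n, fun _ => trivial⟩
        | cast i => simp only [Fin.snoc_castSucc]; exact h1 i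
      · intro i _ i' _ hii
        induction i using Fin.lastCases with
        | last =>
          induction i' using Fin.lastCases with
          | last => exact absurd rfl hii
          | cast i' =>
            simp only [Fin.snoc_last, Fin.snoc_castSucc]
            intro a b c d hab hcd ha hb hc hd e
            exact h3 i' c d a b hcd hab hc hd ha hb e.symm
        | cast i =>
          induction i' using Fin.lastCases with
          | last => simp only [Fin.snoc_last, Fin.snoc_castSucc]; exact h3 i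
          | cast i' =>
            simp only [Fin.snoc_castSucc]
            exact h2 i i' fun e => hii (by rw [e]))
  obtain ⟨g, hg1, hg2⟩ := hcomp
  refine ⟨g, ?_, hg2⟩
  intro i
  refine ⟨(hg1 i).1, ?_⟩
  intro b
  rw [(hg1 i).2 b]
  induction i using Fin.lastCases with
  | last => simp only [Fin.snoc_last]
  | cast i => simp only [Fin.snoc_castSucc]; exact (hX i).2 b

/-- **Theorem.** -/
theorem main {G : SimpleGraph V} (hG : ∀ v, (G.neighborSet v).Finite) (hS : SmallOverlap G) :
    ∃ g : ℕ → Bool × ℤ → V, (∀ i, IsCopy G (g i)) ∧ ∀ i j, i ≠ j → ED (g i) (g j) := by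
  -- the sequence of centres
  let P : (Σ k : ℕ, (Fin k → Bool → V)) → Prop := fun J => Linkable G J.2
  have h0 : P ⟨0, fun i => i.elim0⟩ := ⟨fun i => i.elim0, fun i => i.elim0, fun i => i.elim0⟩
  choose ext hext using fun (k : ℕ) (J : Fin k → Bool → V) (h : Linkable G J) => h.extend hG hS
  let s : (k : ℕ) → {J : Fin k → Bool → V // Linkable G J} := fun k =>
    Nat.rec (motive := fun k => {J : Fin k → Bool → V // Linkable G J}) ⟨fun i => i.elim0, h0⟩
      (fun k J => ⟨Fin.snoc (α := fun _ => Bool → V) J.1 (ext k J.1 J.2), hext k J.1 J.2⟩) k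
  let J : ℕ → Bool → V := fun k => (s (k + 1)).1 (Fin.last k)
  have hs : ∀ k, ∀ i : Fin k, (s k).1 i = J i := by
    intro k
    induction k with
    | zero => exact fun i => i.elim0
    | succ k ih =>
      intro i
      induction i using Fin.lastCases with
      | last => rfl
      | cast i =>
        have h1 : (s (k + 1)).1 (Fin.castSucc i) = (s k).1 i := by
          show Fin.snoc (α := fun _ => Bool → V) (s k).1 (ext k (s k).1 (s k).2) (Fin.castSucc i) = _
          rw [Fin.snoc_castSucc]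
        rw [h1, ih i]
        rfl
  obtain ⟨g, hg1, hg2⟩ := compactness (ι := ℕ) hG J (fun n => {i | i < n})
    (fun n n' h i hi => lt_of_lt_of_le hi h) (fun i => ⟨i + 1, Nat.lt_succ_self i⟩) (by
      intro n
      obtain ⟨g, h1, h2⟩ := (s n).2
      refine ⟨fun i => if hi : i < n then g ⟨i, hi⟩ else fun a => J i a.1, ?_, ?_⟩
      · intro i hi
        have hi' : i < n := hi
        simp only [dif_pos hi']
        refine ⟨(h1 ⟨i, hi'⟩).1.nc n, fun b => ?_⟩
        rw [(h1 ⟨i, hi'⟩).2 b, hs n ⟨i, hi'⟩]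
      · intro i hi j hj hij
        have hi' : i < n := hi
        have hj' : j < n := hj
        simp only [dif_pos hi', dif_pos hj']
        exact (h2 ⟨i, hi'⟩ ⟨j, hj'⟩ fun e => hij (by simpa using e)).ned n)
  exact ⟨g, fun i => (hg1 i).1, hg2⟩

/-- a vertex lies in at most as many edge-disjoint copies as its degree -/
theorem overlap_le_degree {G : SimpleGraph V} {N : ℕ} {Y : Fin N → Bool × ℤ → V}
    (hY : ∀ j, IsCopy G (Y j)) (hYY : ∀ j j', j ≠ j' → ED (Y j) (Y j')) (x : V)
    (hfin : (G.neighborSet x).Finite) :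
    {j | x ∈ Set.range (Y j)}.ncard ≤ (G.neighborSet x).ncard := by
  have hch : ∀ j : Fin N, ∃ y, x ∈ Set.range (Y j) →
      ∃ a b, FG.Adj a b ∧ Y j a = x ∧ Y j b = y := by
    intro j
    by_cases hj : x ∈ Set.range (Y j)
    · obtain ⟨a, ha⟩ := hj
      refine ⟨Y j (a.1, a.2 + 1), fun _ => ⟨a, (a.1, a.2 + 1), ?_, ha, rfl⟩⟩
      rw [FG_adj]
      exact Or.inl ⟨rfl, Or.inl rfl⟩
    · exact ⟨x, fun h => absurd h hj⟩
  choose y hy using hch
  refine Set.ncard_le_ncard_of_injOn y ?_ ?_ hfin
  · intro j hj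
    obtain ⟨a, b, hab, h1, h2⟩ := hy j hj
    rw [← h1, ← h2]
    exact (hY j).adj a b hab
  · intro j hj j' hj' e
    by_contra hne
    obtain ⟨a, b, hab, h1, h2⟩ := hy j hj
    obtain ⟨a', b', hab', h1', h2'⟩ := hy j' hj'
    refine hYY j j' hne a b a' b' hab hab' ?_
    rw [h1, h2, h1', h2', e]

end B399
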