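import Mathlib

set_option linter.unusedSimpArgs false

/-! Menger's theorem for finite digraphs, with walks represented by lists. -/

namespace B399M

open List

variable {V : Type*}

/-- `l` is a walk of the relation `R` from `A` to `B` -/
def WAB (R : V → V → Prop) (A B : Set V) (l : List V) : Prop :=
  l.IsChain R ∧ (∃ a ∈ l.head?, a ∈ A) ∧ (∃ b ∈ l.getLast?, b ∈ B)

/-- the set `T` meets each walk from `A` to `B` -/
def Sep (R : V → V → Prop) (A B : Set V) (T : Finset V) : Prop :=
  ∀ l, WAB R A B l → ∃ t ∈ T, t ∈ l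

theorem WAB.ne_nil {R : V → V → Prop} {A B : Set V} {l : List V} (h : WAB R A B l) : l ≠ [] := by
  rintro rfl
  obtain ⟨_, ⟨a, ha, _⟩, _⟩ := h
  simp at ha

theorem WAB.mono {R R' : V → V → Prop} {A B : Set V} {l : List V} (h : WAB R A B l)
    (hR : ∀ a b, R a b → R' a b) : WAB R' A B l :=
  ⟨h.1.imp hR, h.2.1, h.2.2⟩

/-- split at the first element with a property -/
theorem split_first (P : V → Prop) : ∀ l : List V, (∃ x ∈ l, P x) →
    ∃ l1 p l2, l = l1 ++ p :: l2 ∧ P p ∧ ∀ x ∈ l1, ¬ P x := by
  intro l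
  induction l with
  | nil => rintro ⟨x, hx, _⟩; simp at hx
  | cons a l ih =>
    intro h
    by_cases ha : P a
    · exact ⟨[], a, l, rfl, ha, by simp⟩
    · obtain ⟨x, hx, hPx⟩ := h
      rcases List.mem_cons.1 hx with rfl | hx
      · exact absurd hPx ha
      · obtain ⟨l1, p, l2, rfl, hp, h1⟩ := ih ⟨x, hx, hPx⟩
        refine ⟨a :: l1, p, l2, rfl, hp, ?_⟩
        intro y hy
        rcases List.mem_cons.1 hy with rfl | hy
        · exact ha
        · exact h1 y hy

/-- split at the last element with a property -/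
theorem split_last (P : V → Prop) (l : List V) (h : ∃ x ∈ l, P x) :
    ∃ l1 p l2, l = l1 ++ p :: l2 ∧ P p ∧ ∀ x ∈ l2, ¬ P x := by
  obtain ⟨l1, p, l2, h1, hp, h2⟩ := split_first P l.reverse (by simpa using h)
  refine ⟨l2.reverse, p, l1.reverse, ?_, hp, by simpa using h2⟩
  have := congrArg List.reverse h1
  simpa using this

theorem head?_append_cons (l1 : List V) (p : V) (l2 : List V) :
    (l1 ++ p :: l2).head? = (l1 ++ [p]).head? := by
  cases l1 <;> simp

theorem getLast?_append_cons' (l1 : List V) (p : V) (l2 : List V) :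
    (l1 ++ p :: l2).getLast? = (p :: l2).getLast? := by
  simp [List.getLast?_append, List.getLast?_cons]

/-- The initial part of a walk up to `p`. -/
theorem WAB.left {R : V → V → Prop} {A B C : Set V} {l1 : List V} {p : V} {l2 : List V}
    (h : WAB R A B (l1 ++ p :: l2)) (hp : p ∈ C) : WAB R A C (l1 ++ [p]) := by
  refine ⟨?_, ?_, ⟨p, by simp, hp⟩⟩
  · have := h.1
    rw [List.isChain_split] at this
    exact this.1
  · rw [← head?_append_cons l1 p l2]
    exact h.2.1

/-- The final part of a walk from `p`. -/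
theorem WAB.right {R : V → V → Prop} {A B C : Set V} {l1 : List V} {p : V} {l2 : List V}
    (h : WAB R A B (l1 ++ p :: l2)) (hp : p ∈ C) : WAB R C B (p :: l2) := by
  refine ⟨?_, ⟨p, by simp, hp⟩, ?_⟩
  · have := h.1
    rw [List.isChain_split] at this
    exact this.2
  · rw [← getLast?_append_cons' l1 p l2]
    exact h.2.2

/-- Concatenation of walks at a common vertex. -/
theorem WAB.glue {R : V → V → Prop} {A B C D : Set V} {l1 : List V} {p : V} {l2 : List V}
    (h : WAB R A C (l1 ++ [p])) (h' : WAB R D B (p :: l2)) : WAB R A B (l1 ++ p :: l2) := by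
  refine ⟨?_, ?_, ?_⟩
  · rw [List.isChain_split]
    exact ⟨h.1, h'.1⟩
  · rw [head?_append_cons l1 p l2]
    exact h.2.1
  · rw [getLast?_append_cons' l1 p l2]
    exact h'.2.2

/-- Concatenation of walks along an arc. -/
theorem WAB.glue' {R : V → V → Prop} {A B C D : Set V} {l1 : List V} {p q : V} {l2 : List V}
    (h : WAB R A C (l1 ++ [p])) (hpq : R p q) (h' : WAB R D B (q :: l2)) :
    WAB R A B (l1 ++ p :: q :: l2) := by
  refine ⟨?_, ?_, ?_⟩
  · rw [List.isChain_split]
    exact ⟨h.1, List.isChain_cons_cons.2 ⟨hpq, h'.1⟩⟩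
  · rw [head?_append_cons l1 p (q :: l2)]
    exact h.2.1
  · have h2 := h'.2.2
    have : (l1 ++ p :: q :: l2).getLast? = (q :: l2).getLast? := by
      rw [getLast?_append_cons']
      simp [List.getLast?_cons]
    rw [this]
    exact h2

theorem chain_erase {R : V → V → Prop} (x y : V) : ∀ l : List V, l.IsChain R →
    l.IsChain (fun u v => R u v ∧ ¬ (u = x ∧ v = y)) ∨ (x ∈ l ∧ y ∈ l) := by
  intro l
  induction l with
  | nil => intro _; exact Or.inl .nil
  | cons a l ih =>
    intro h
    cases l with
    | nil => exact Or.inl (.singleton _)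
    | cons b l =>
      rw [List.isChain_cons_cons] at h
      rcases ih h.2 with h1 | h1
      · by_cases hab : a = x ∧ b = y
        · right
          simp [hab.1, hab.2]
        · left
          rw [List.isChain_cons_cons]
          exact ⟨⟨h.1, hab⟩, h1⟩
      · right
        exact ⟨List.mem_cons_of_mem _ h1.1, List.mem_cons_of_mem _ h1.2⟩

theorem chain_erase_left {R : V → V → Prop} (x y : V) (p : V) : ∀ l : List V,
    (l ++ [p]).IsChain R → x ∉ l →
    (l ++ [p]).IsChain (fun u v => R u v ∧ ¬ (u = x ∧ v = y)) := by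
  intro l
  induction l with
  | nil => intro _ _; exact .singleton _
  | cons a l ih =>
    intro h hx
    have hax : a ≠ x := by rintro rfl; simp at hx
    have hxl : x ∉ l := fun h => hx (List.mem_cons_of_mem _ h)
    rw [List.cons_append, List.isChain_cons] at h ⊢
    refine ⟨?_, ih h.2 hxl⟩
    intro z hz
    exact ⟨h.1 z hz, fun h' => hax h'.1⟩

theorem chain_erase_right {R : V → V → Prop} (x y : V) (p : V) (l : List V) :
    (p :: l).IsChain R → y ∉ l →
    (p :: l).IsChain (fun u v => R u v ∧ ¬ (u = x ∧ v = y)) := by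
  induction l generalizing p with
  | nil => intro _ _; exact .singleton _
  | cons a l ih =>
    intro h hy
    have hay : a ≠ y := by rintro rfl; simp at hy
    have hyl : y ∉ l := fun h => hy (List.mem_cons_of_mem _ h)
    rw [List.isChain_cons_cons] at h ⊢
    exact ⟨⟨h.1, fun h' => hay h'.2⟩, ih a h.2 hyl⟩

theorem WAB.truncate {R : V → V → Prop} {A : Set V} {P : Finset V} {l : List V}
    (h : WAB R A (P : Set V) l) : ∃ l0 p, p ∈ P ∧ WAB R A (P : Set V) (l0 ++ [p]) ∧
      (∀ u ∈ l0, u ∉ P) ∧ (∀ u ∈ l0 ++ [p], u ∈ l) := by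
  obtain ⟨_, _, ⟨b, hb, hbP⟩⟩ := id h
  have hbl : b ∈ l := List.mem_of_getLast? hb
  obtain ⟨l1, p, l2, rfl, hp, h1⟩ := split_first (fun x => x ∈ P) l ⟨b, hbl, hbP⟩
  refine ⟨l1, p, hp, h.left (C := (P : Set V)) (by simpa using hp), h1, ?_⟩
  intro u hu
  rcases List.mem_append.1 hu with hu | hu
  · exact List.mem_append_left _ hu
  · rw [List.mem_singleton] at hu
    subst hu
    simp

theorem WAB.truncate' {R : V → V → Prop} {B : Set V} {Q : Finset V} {l : List V}
    (h : WAB R (Q : Set V) B l) : ∃ q l0, q ∈ Q ∧ WAB R (Q : Set V) B (q :: l0) ∧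
      (∀ u ∈ l0, u ∉ Q) ∧ (∀ u ∈ q :: l0, u ∈ l) := by
  obtain ⟨_, ⟨a, ha, haQ⟩, _⟩ := id h
  have hal : a ∈ l := List.mem_of_mem_head? ha
  obtain ⟨l1, p, l2, rfl, hp, h1⟩ := split_last (fun x => x ∈ Q) l ⟨a, hal, haQ⟩
  refine ⟨p, l2, hp, h.right (C := (Q : Set V)) (by simpa using hp), h1, ?_⟩
  intro u hu
  exact List.mem_append_right _ hu

open Classical in
theorem menger_aux [Finite V] : ∀ (n : ℕ) (R : V → V → Prop),
    Set.ncard {p : V × V | R p.1 p.2} = n → ∀ (A B : Set V) (k : ℕ),
    (∀ T : Finset V, Sep R A B T → k ≤ T.card) →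
    ∃ p : Fin k → List V, (∀ i, WAB R A B (p i)) ∧ ∀ i j, i ≠ j → (p i).Disjoint (p j) := by
  have : Fintype V := Fintype.ofFinite V
  intro n
  induction n with
  | zero =>
    intro R hR A B k hk
    have hno : ∀ u v, ¬ R u v := by
      intro u v huv
      have : {p : V × V | R p.1 p.2} = ∅ := by
        rw [← Set.ncard_eq_zero (Set.toFinite _)]
        exact hR
      have h2 : (u, v) ∈ {p : V × V | R p.1 p.2} := huv
      rw [this] at h2
      exact h2
    have hs : Sep R A B (Finset.univ.filter (fun x => x ∈ A ∧ x ∈ B)) := by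
      intro l hl
      obtain ⟨h1, ⟨a, ha, haA⟩, ⟨b, hb, hbB⟩⟩ := hl
      match l, h1 with
      | [], _ => simp at ha
      | [c], _ =>
        simp at ha hb
        subst ha; subst hb
        exact ⟨c, by simp [haA, hbB], by simp⟩
      | c :: d :: l, h1 =>
        rw [List.isChain_cons_cons] at h1
        exact absurd h1.1 (hno _ _)
    have hc := hk _ hs
    obtain ⟨s, hs1, hs2⟩ := Finset.exists_subset_card_eq hc
    let e : Fin k ≃ s := (Finset.equivFinOfCardEq hs2).symm
    refine ⟨fun i => [(e i : V)], ?_, ?_⟩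
    · intro i
      have := hs1 (e i).2
      simp only [Finset.mem_filter, Finset.mem_univ, true_and] at this
      exact ⟨.singleton _, ⟨_, by simp, this.1⟩, ⟨_, by simp, this.2⟩⟩
    · intro i j hij
      simp only [List.disjoint_singleton, List.mem_singleton]
      intro h
      apply hij
      apply e.injective
      exact Subtype.ext h.symm
  | succ n ih =>
    intro R hR A B k hk
    obtain ⟨⟨x, y⟩, hxy⟩ : {p : V × V | R p.1 p.2}.Nonempty := by
      rw [← Set.ncard_pos (Set.toFinite _)]
      omega
    have hxy' : R x y := hxy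
    set R' : V → V → Prop := fun u v => R u v ∧ ¬ (u = x ∧ v = y) with hR'
    have hmono : ∀ a b, R' a b → R a b := fun a b h => h.1
    have hcard : Set.ncard {p : V × V | R' p.1 p.2} = n := by
      have : {p : V × V | R' p.1 p.2} = {p : V × V | R p.1 p.2} \ {(x, y)} := by
        ext ⟨u, v⟩
        simp [hR']
      rw [this, Set.ncard_sdiff_singleton_of_mem hxy, hR]
      rfl
    by_cases hbig : ∀ T : Finset V, Sep R' A B T → k ≤ T.card
    · obtain ⟨p, hp1, hp2⟩ := ih R' hcard A B k hbig
      exact ⟨p, fun i => (hp1 i).mono hmono, hp2⟩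
    push Not at hbig
    obtain ⟨S, hS, hSk⟩ := hbig
    set P := insert x S with hP
    set Q := insert y S with hQ
    have hPs : Sep R A B P := by
      intro l hl
      rcases chain_erase x y l hl.1 with h | h
      · obtain ⟨t, ht, htl⟩ := hS l ⟨h, hl.2⟩
        exact ⟨t, Finset.mem_insert_of_mem ht, htl⟩
      · exact ⟨x, Finset.mem_insert_self _ _, h.1⟩
    have hQs : Sep R A B Q := by
      intro l hl
      rcases chain_erase x y l hl.1 with h | h
      · obtain ⟨t, ht, htl⟩ := hS l ⟨h, hl.2⟩
        exact ⟨t, Finset.mem_insert_of_mem ht, htl⟩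
      · exact ⟨y, Finset.mem_insert_self _ _, h.2⟩
    have hPk := hk P hPs
    have hQk := hk Q hQs
    have hP1 : P.card ≤ S.card + 1 := Finset.card_insert_le _ _
    have hQ1 : Q.card ≤ S.card + 1 := Finset.card_insert_le _ _
    have hxS : x ∉ S := by
      intro h
      rw [hP, Finset.insert_eq_of_mem h] at hPk
      omega
    have hyS : y ∉ S := by
      intro h
      rw [hQ, Finset.insert_eq_of_mem h] at hQk
      omega
    have hPc : P.card = k := by omega
    have hQc : Q.card = k := by omega
    -- connectors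
    have h1 : ∀ T : Finset V, Sep R' A (P : Set V) T → k ≤ T.card := by
      intro T hT
      apply hk
      intro l hl
      obtain ⟨p, hp, hpl⟩ := hPs l hl
      obtain ⟨l1, q, l2, rfl, hq, hl1⟩ := split_first (fun z => z ∈ P) l ⟨p, hpl, hp⟩
      have hw := hl.left (C := (P : Set V)) (p := q) (by simpa using hq)
      have hw' : WAB R' A (P : Set V) (l1 ++ [q]) := by
        refine ⟨chain_erase_left x y q l1 hw.1 ?_, hw.2⟩
        intro hx
        exact hl1 x hx (Finset.mem_insert_self _ _)
      obtain ⟨t, ht, htl⟩ := hT _ hw'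
      refine ⟨t, ht, ?_⟩
      simp only [List.mem_append, List.mem_singleton, List.mem_cons] at htl ⊢
      tauto
    have h2 : ∀ T : Finset V, Sep R' (Q : Set V) B T → k ≤ T.card := by
      intro T hT
      apply hk
      intro l hl
      obtain ⟨p, hp, hpl⟩ := hQs l hl
      obtain ⟨l1, q, l2, rfl, hq, hl1⟩ := split_last (fun z => z ∈ Q) l ⟨p, hpl, hp⟩
      have hw := hl.right (C := (Q : Set V)) (p := q) (by simpa using hq)
      have hw' : WAB R' (Q : Set V) B (q :: l2) := by
        refine ⟨chain_erase_right x y q l2 hw.1 ?_, hw.2⟩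
        intro hx
        exact hl1 y hx (Finset.mem_insert_self _ _)
      obtain ⟨t, ht, htl⟩ := hT _ hw'
      exact ⟨t, ht, List.mem_append_right _ htl⟩
    obtain ⟨pa, hpa1, hpa2⟩ := ih R' hcard A P k h1
    obtain ⟨pb, hpb1, hpb2⟩ := ih R' hcard Q B k h2
    choose a0 ea hea hwa hna hsa using fun i => (hpa1 i).truncate
    choose eb b0 heb hwb hnb hsb using fun i => (hpb1 i).truncate'
    -- end maps are bijections
    have hinj : ∀ i j, ea i = ea j → i = j := by
      intro i j hij
      by_contra hne
      exact hpa2 i j hne (hsa i (ea i) (by simp)) (by rw [hij]; exact hsa j (ea j) (by simp))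
    have hinj' : ∀ i j, eb i = eb j → i = j := by
      intro i j hij
      by_contra hne
      exact hpb2 i j hne (hsb i (eb i) (by simp)) (by rw [hij]; exact hsb j (eb j) (by simp))
    have hsurj : ∀ p ∈ P, ∃ i, ea i = p := by
      intro p hp
      have : Function.Bijective (fun i : Fin k => (⟨ea i, hea i⟩ : P)) := by
        rw [Fintype.bijective_iff_injective_and_card]
        refine ⟨fun i j h => hinj i j (congrArg Subtype.val h), by simp [hPc]⟩
      obtain ⟨i, hi⟩ := this.2 ⟨p, hp⟩
      exact ⟨i, congrArg Subtype.val hi⟩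
    have hsurj' : ∀ p ∈ Q, ∃ i, eb i = p := by
      intro p hp
      have : Function.Bijective (fun i : Fin k => (⟨eb i, heb i⟩ : Q)) := by
        rw [Fintype.bijective_iff_injective_and_card]
        refine ⟨fun i j h => hinj' i j (congrArg Subtype.val h), by simp [hQc]⟩
      obtain ⟨i, hi⟩ := this.2 ⟨p, hp⟩
      exact ⟨i, congrArg Subtype.val hi⟩
    -- intersections of the two families
    have hmeet : ∀ i j z, z ∈ a0 i ++ [ea i] → z ∈ eb j :: b0 j → z ∈ S := by
      intro i j z hz1 hz2
      by_contra hzS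
      -- left portion
      obtain ⟨l1, hl1, hl1S⟩ : ∃ l1, WAB R' A Set.univ (l1 ++ [z]) ∧ ∀ u ∈ l1, u ∉ S := by
        rcases List.mem_append.1 hz1 with h | h
        · obtain ⟨m1, m2, hm⟩ := List.append_of_mem h
          have hw := hwa i
          rw [hm, List.append_assoc, List.cons_append] at hw
          refine ⟨m1, hw.left (Set.mem_univ _), ?_⟩
          intro u hu huS
          apply hna i u
          · rw [hm]; exact List.mem_append_left _ hu
          · exact Finset.mem_insert_of_mem huS
        · rw [List.mem_singleton] at h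
          subst h
          refine ⟨a0 i, ⟨(hwa i).1, (hwa i).2.1, ⟨ea i, by simp, Set.mem_univ _⟩⟩, ?_⟩
          intro u hu huS
          exact hna i u hu (Finset.mem_insert_of_mem huS)
      obtain ⟨l2, hl2, hl2S⟩ : ∃ l2, WAB R' Set.univ B (z :: l2) ∧ ∀ u ∈ l2, u ∉ S := by
        rcases List.mem_cons.1 hz2 with h | h
        · subst h
          refine ⟨b0 j, ⟨(hwb j).1, ⟨eb j, by simp, Set.mem_univ _⟩, (hwb j).2.2⟩, ?_⟩
          intro u hu huS
          exact hnb j u hu (Finset.mem_insert_of_mem huS)
        · obtain ⟨m1, m2, hm⟩ := List.append_of_mem h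
          have hw := hwb j
          rw [hm, ← List.cons_append] at hw
          refine ⟨m2, hw.right (Set.mem_univ _), ?_⟩
          intro u hu huS
          apply hnb j u
          · rw [hm]; exact List.mem_append_right _ (List.mem_cons_of_mem _ hu)
          · exact Finset.mem_insert_of_mem huS
      obtain ⟨t, ht, htl⟩ := hS _ (hl1.glue hl2)
      rcases List.mem_append.1 htl with h | h
      · exact hl1S t h ht
      · rcases List.mem_cons.1 h with h | h
        · subst h; exact hzS ht
        · exact hl2S t h ht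
    have hSa : ∀ i z, z ∈ a0 i ++ [ea i] → z ∈ S → z = ea i := by
      intro i z hz hzS
      rcases List.mem_append.1 hz with h | h
      · exact absurd (Finset.mem_insert_of_mem hzS) (hna i z h)
      · simpa using h
    have hSb : ∀ i z, z ∈ eb i :: b0 i → z ∈ S → z = eb i := by
      intro i z hz hzS
      rcases List.mem_cons.1 hz with h | h
      · exact h
      · exact absurd (Finset.mem_insert_of_mem hzS) (hnb i z h)
    -- the partner
    have hpart : ∀ i, ∃ j, (ea i = x ∧ eb j = y) ∨ (ea i ∈ S ∧ eb j = ea i) := by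
      intro i
      rcases Finset.mem_insert.1 (hea i) with h | h
      · obtain ⟨j, hj⟩ := hsurj' y (Finset.mem_insert_self _ _)
        exact ⟨j, Or.inl ⟨h, hj⟩⟩
      · obtain ⟨j, hj⟩ := hsurj' (ea i) (Finset.mem_insert_of_mem h)
        exact ⟨j, Or.inr ⟨h, hj⟩⟩
    choose τ hτ using hpart
    have hfin : ∀ i, ∃ l, WAB R A B l ∧ ∀ z ∈ l, z ∈ a0 i ++ [ea i] ∨ z ∈ eb (τ i) :: b0 (τ i) := by
      intro i
      rcases hτ i with ⟨h1, h2⟩ | ⟨h1, h2⟩
      · have ha := (hwa i).mono hmono
        have hb := (hwb (τ i)).mono hmono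
        rw [h1] at ha
        rw [h2] at hb
        refine ⟨a0 i ++ x :: y :: b0 (τ i), ha.glue' hxy' hb, ?_⟩
        intro z hz
        rw [h1, h2]
        simp only [List.mem_append, List.mem_cons, List.mem_singleton] at hz ⊢
        tauto
      · have ha := (hwa i).mono hmono
        have hb := (hwb (τ i)).mono hmono
        rw [h2] at hb
        refine ⟨a0 i ++ ea i :: b0 (τ i), ha.glue hb, ?_⟩
        intro z hz
        rw [h2]
        simp only [List.mem_append, List.mem_cons, List.mem_singleton] at hz ⊢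
        tauto
    choose p hp1 hp2 using hfin
    refine ⟨p, hp1, ?_⟩
    have hτinj : ∀ i j, eb (τ i) = eb (τ j) → i = j := by
      intro i j h
      apply hinj
      rcases hτ i with ⟨h1, h2⟩ | ⟨h1, h2⟩ <;> rcases hτ j with ⟨h3, h4⟩ | ⟨h3, h4⟩
      · rw [h1, h3]
      · exfalso
        rw [h2, h4] at h
        rw [← h] at h3
        exact hyS h3
      · exfalso
        rw [h2, h4] at h
        rw [h] at h1
        exact hyS h1
      · rw [h2, h4] at h
        exact h
    have hcross : ∀ i j z, z ∈ a0 i ++ [ea i] → z ∈ eb (τ j) :: b0 (τ j) → i = j := by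
      intro i j z hzi hzj
      have hzS := hmeet i (τ j) z hzi hzj
      have e1 := hSa i z hzi hzS
      have e2 := hSb (τ j) z hzj hzS
      rcases hτ j with ⟨h3, h4⟩ | ⟨h3, h4⟩
      · exfalso
        rw [e2, h4] at hzS
        exact hyS hzS
      · apply hinj
        rw [← e1, e2, h4]
    intro i j hij z hzi hzj
    rcases hp2 i z hzi with h1 | h1 <;> rcases hp2 j z hzj with h2 | h2
    · exact hpa2 i j hij (hsa i z h1) (hsa j z h2)
    · exact hij (hcross i j z h1 h2)
    · exact hij (hcross j i z h2 h1).symm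
    · have hne : τ i ≠ τ j := fun h => hij (hτinj i j (by rw [h]))
      exact hpb2 (τ i) (τ j) hne (hsb _ z h1) (hsb _ z h2)

/-- **Menger's theorem** for finite digraphs: if every set meeting all walks from `A` to `B` has at
least `k` elements, then there are `k` pairwise disjoint walks from `A` to `B`. -/
theorem menger [Finite V] (R : V → V → Prop) (A B : Set V) (k : ℕ)
    (h : ∀ T : Finset V, Sep R A B T → k ≤ T.card) :
    ∃ p : Fin k → List V, (∀ i, WAB R A B (p i)) ∧ ∀ i j, i ≠ j → (p i).Disjoint (p j) :=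
  menger_aux _ R rfl A B k h

end B399M
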