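import Pool.Agent.Lib.MP_b399ad_co.Exch
import Pool.Agent.Lib.MP_b399ad_co.Paths

/-! # MP_b399ad_co: re-routing (helper77) -/

namespace B399

open Set

variable {V : Type*}

theorem arm_eventually {G : SimpleGraph V} {g : Bool × ℤ → V} (h : IsCopy G g)
    (σ : Bool × Bool) {B : Set V} (hB : B.Finite) : ∀ᶠ m in Filter.atTop, arm g σ m ∉ B := by
  have h1 : {m | arm g σ m ∈ B}.Finite := hB.preimage (arm_inj h σ).injOn
  have h2 := h1.compl_mem_cofinite
  rw [Nat.cofinite_eq_atTop] at h2
  exact h2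

namespace Cfg

variable {G : SimpleGraph V} {k N : ℕ} (c : Cfg G k N)

open Classical in
theorem reroute (i : Fin k) {B : Set V} (hB : B.Finite) {q : ℕ}
    (hq : ∀ x : V, (Finset.univ.filter fun r : Fin N × (Bool × Bool) =>
      x ∈ Set.range (arm (c.Y r.1) r.2)).card ≤ q)
    (hend : ∀ σ, arm (c.X i) σ (c.t (i, σ) - 1) ∉ B ∨
      5 * q < (Finset.univ.filter fun r => c.own r = some (i, σ)).card) :
    ∃ P : Bool × Bool → List V, (∀ σ, (P σ).head? = some (arm (c.X i) σ 1) ∧
      (P σ).IsChain (c.R i) ∧ (∃ b ∈ (P σ).getLast?, b ∉ B) ∧ (P σ).Nodup ∧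
      ∀ x ∈ P σ, ∀ b, x ≠ c.X i (b, 0)) ∧ ∀ σ σ', σ ≠ σ' → (P σ).Disjoint (P σ') := by
  obtain ⟨M, hM⟩ : ∃ M, ∀ r : Fin N × (Bool × Bool), c.pos r ≤ M ∧ arm (c.Y r.1) r.2 M ∉ B := by
    have h : ∀ᶠ M in Filter.atTop, ∀ r : Fin N × (Bool × Bool),
        c.pos r ≤ M ∧ arm (c.Y r.1) r.2 M ∉ B := by
      rw [Filter.eventually_all]
      intro r
      exact (Filter.eventually_ge_atTop _).and (arm_eventually (c.hY r.1) r.2 hB)
    exact h.exists
  set W0 : Set V := (⋃ l : Fin k × (Bool × Bool), (arm (c.X l.1) l.2) '' Set.Iio (c.t l)) ∪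
    (⋃ r : Fin N × (Bool × Bool), (arm (c.Y r.1) r.2) '' Set.Iic M) with hW0
  have hW0f : W0.Finite := by
    refine Set.Finite.union ?_ ?_
    · exact Set.finite_iUnion fun l => (Set.finite_Iio _).image _
    · exact Set.finite_iUnion fun r => (Set.finite_Iic _).image _
  have hleg : ∀ σ p, p < c.t (i, σ) → arm (c.X i) σ p ∈ W0 := by
    intro σ p hp
    refine Or.inl ?_
    rw [Set.mem_iUnion]
    exact ⟨(i, σ), p, hp, rfl⟩
  have hray : ∀ r : Fin N × (Bool × Bool), ∀ m ≤ M, arm (c.Y r.1) r.2 m ∈ W0 := by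
    intro r m hm
    refine Or.inr ?_
    rw [Set.mem_iUnion]
    exact ⟨r, m, hm, rfl⟩
  set W : Set V := {x | x ∈ W0 ∧ ∀ b, x ≠ c.X i (b, 0)} with hW
  have hWf : W.Finite := hW0f.subset fun x hx => hx.1
  have hpos1 : ∀ σ p, 1 ≤ p → ∀ b, arm (c.X i) σ p ≠ c.X i (b, 0) := by
    intro σ p hp b e
    have h1 := (c.hX i).inj e
    rw [Prod.mk.injEq] at h1
    have h2 := h1.2
    unfold sg at h2
    split_ifs at h2 <;> omega
  have hlegW : ∀ σ p, 1 ≤ p → p < c.t (i, σ) → arm (c.X i) σ p ∈ W :=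
    fun σ p h1 h2 => ⟨hleg σ p h2, hpos1 σ p h1⟩
  obtain ⟨p, hp1, hp2⟩ := menger' W hWf (fun x y => c.R i x y ∧ x ∈ W ∧ y ∈ W)
    {x | ∃ σ, x = arm (c.X i) σ 1} {x | x ∉ B} (by
      rintro x ⟨σ, rfl⟩
      exact hlegW σ 1 le_rfl (c.t2 (i, σ))) (fun x y h => h.2) 4 (by
    intro T hT
    -- an arm which avoids `T`
    obtain ⟨σ, hσ⟩ : ∃ σ, ∀ p, 1 ≤ p → arm (c.X i) σ p ∉ T := by
      by_contra hcon
      push Not at hcon
      choose f hf1 hf2 using hcon
      have h1 : (Finset.univ : Finset (Bool × Bool)).card ≤ T.card := by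
        refine Finset.card_le_card_of_injOn (fun σ => arm (c.X i) σ (f σ)) (fun σ _ => hf2 σ) ?_
        intro σ _ σ' _ e
        exact arm_arm (c.hX i) (hf1 σ) e
      have h2 : (Finset.univ : Finset (Bool × Bool)).card = 4 := by
        simp [Finset.card_univ]
      omega
    refine ⟨arm (c.X i) σ 1, ⟨σ, rfl⟩, hσ 1 le_rfl, ?_⟩
    have hlegpath : ∀ p, 1 ≤ p → p < c.t (i, σ) → Relation.ReflTransGen
        (fun x y => (c.R i x y ∧ x ∈ W ∧ y ∈ W) ∧ y ∉ T) (arm (c.X i) σ 1) (arm (c.X i) σ p) := by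
      intro p hp
      induction p, hp using Nat.le_induction with
      | base => exact fun _ => Relation.ReflTransGen.refl
      | succ p hp ih =>
        intro hpt
        refine (ih (by omega)).tail ⟨⟨Or.inl ⟨σ, p, hpt, rfl⟩, hlegW σ p hp (by omega),
          hlegW σ (p + 1) (by omega) hpt⟩, hσ _ (by omega)⟩
    have ht := c.t2 (i, σ)
    rcases hend σ with h1 | h1
    · exact ⟨_, h1, hlegpath _ (by omega) (by omega)⟩
    · -- a used ray which avoids `T` and the centre
      obtain ⟨r, hr1, hr2⟩ : ∃ r, c.own r = some (i, σ) ∧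
          ∀ x ∈ insert (c.X i (false, 0)) (insert (c.X i (true, 0)) T),
            x ∉ Set.range (arm (c.Y r.1) r.2) := by
        by_contra hcon
        push Not at hcon
        have hsub : (Finset.univ.filter fun r => c.own r = some (i, σ)) ⊆
            (insert (c.X i (false, 0)) (insert (c.X i (true, 0)) T)).biUnion fun x =>
              Finset.univ.filter fun r : Fin N × (Bool × Bool) =>
                x ∈ Set.range (arm (c.Y r.1) r.2) := by
          intro r hr
          rw [Finset.mem_filter] at hr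
          obtain ⟨x, hx1, hx2⟩ := hcon r hr.2
          rw [Finset.mem_biUnion]
          exact ⟨x, hx1, by rw [Finset.mem_filter]; exact ⟨Finset.mem_univ _, hx2⟩⟩
        have h2 := Finset.card_le_card hsub
        have h3 := Finset.card_biUnion_le_card_mul
          (insert (c.X i (false, 0)) (insert (c.X i (true, 0)) T))
          (fun x => Finset.univ.filter fun r : Fin N × (Bool × Bool) =>
                x ∈ Set.range (arm (c.Y r.1) r.2)) q (fun x _ => hq x)
        have h4 : (insert (c.X i (false, 0)) (insert (c.X i (true, 0)) T)).card ≤ 5 := by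
          have e1 := Finset.card_insert_le (c.X i (false, 0)) (insert (c.X i (true, 0)) T)
          have e2 := Finset.card_insert_le (c.X i (true, 0)) T
          omega
        have h5 : (insert (c.X i (false, 0)) (insert (c.X i (true, 0)) T)).card * q ≤ 5 * q :=
          Nat.mul_le_mul_right q h4
        omega
      have hrT : ∀ m, arm (c.Y r.1) r.2 m ∉ T := by
        intro m hm
        exact hr2 _ (Finset.mem_insert_of_mem (Finset.mem_insert_of_mem hm)) ⟨m, rfl⟩
      have hrc : ∀ m b, arm (c.Y r.1) r.2 m ≠ c.X i (b, 0) := by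
        intro m b e
        cases b
        · exact hr2 (c.X i (false, 0)) (Finset.mem_insert_self _ _) ⟨m, e⟩
        · exact hr2 (c.X i (true, 0)) (Finset.mem_insert_of_mem (Finset.mem_insert_self _ _)) ⟨m, e⟩
      obtain ⟨p, hp, hpr⟩ := c.own1 r (i, σ) hr1
      have hp1 : 1 ≤ p := by
        by_contra h0
        have h0' : p = 0 := by omega
        subst h0'
        simp only [arm_zero] at hpr
        exact hrc _ _ hpr.symm
      have h6 := hlegpath p hp1 hp
      simp only at hpr
      rw [hpr] at h6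
      have hraypath : ∀ m, c.pos r ≤ m → m ≤ M → Relation.ReflTransGen
          (fun x y => (c.R i x y ∧ x ∈ W ∧ y ∈ W) ∧ y ∉ T) (arm (c.X i) σ 1)
            (arm (c.Y r.1) r.2 m) := by
        intro m hm
        induction m, hm using Nat.le_induction with
        | base => exact fun _ => h6
        | succ m hm ih =>
          intro hmM
          refine (ih (by omega)).tail ⟨⟨Or.inr ⟨r, σ, m, hr1, hm, rfl⟩,
            ⟨hray r m (by omega), hrc m⟩, ⟨hray r (m + 1) hmM, hrc (m + 1)⟩⟩, hrT _⟩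
      exact ⟨_, (hM r).2, hraypath M (hM r).1 le_rfl⟩)
  have hhead : ∀ j, ∃ σ, (p j).head? = some (arm (c.X i) σ 1) := by
    intro j
    obtain ⟨_, _, ⟨a, ha, σ, haσ⟩, _⟩ := hp1 j
    rw [Option.mem_def] at ha
    exact ⟨σ, by rw [ha, haσ]⟩
  choose s hs using hhead
  have hsinj : Function.Injective s := by
    intro j j' e
    by_contra hne
    have h1 := hs j
    have h2 := hs j'
    rw [← e] at h2
    exact hp2 j j' hne (List.mem_of_mem_head? h1) (List.mem_of_mem_head? h2)
  have hsbij : Function.Bijective s := by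
    rw [Fintype.bijective_iff_injective_and_card]
    exact ⟨hsinj, by simp⟩
  let e := Equiv.ofBijective s hsbij
  refine ⟨fun σ => p (e.symm σ), ?_, ?_⟩
  · intro σ
    obtain ⟨h1, h2, h3, h4, h5, h6⟩ := hp1 (e.symm σ)
    refine ⟨?_, h2.imp fun _ _ h => h.1, h4, h5, fun x hx => (h6 x hx).2⟩
    have := hs (e.symm σ)
    rw [this]
    have h7 : s (e.symm σ) = σ := e.apply_symm_apply σ
    rw [h7]
  · intro σ σ' hne
    exact hp2 _ _ fun h => hne (e.symm.injective h)

end Cfg

end B399
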